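import Mathlib

/-!
# NW: definitions for the non-Wieferich theorem (helper11)

All quantities are explicit expressions that make sense in any field `F`; they are used for
`F = ℚ` and `F = ZMod p`.
-/

set_option autoImplicit false

namespace Pool.Agent.H11.NW

open Finset

section
variable (F : Type) [Field F]

/-- `H n = sum_(j=1..n) 1/j` -/
def H (n : ℕ) : F := ∑ j ∈ range n, 1 / ((j : F) + 1)

/-- `H2 n = sum_(j=1..n) 1/j^2` -/
def H2 (n : ℕ) : F := ∑ j ∈ range n, 1 / ((j : F) + 1) ^ 2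

/-- `Od n = sum_(b=1..n) 2/(2b-1)` -/
def Od (n : ℕ) : F := ∑ j ∈ range n, 2 / (2 * (j : F) + 1)

/-- `Od2 n = sum_(b=1..n) 4/(2b-1)^2` -/
def Od2 (n : ℕ) : F := ∑ j ∈ range n, 4 / (2 * (j : F) + 1) ^ 2

/-- `Q i = prod_(b=1..i) 2b/(2b+1)` -/
def Q (i : ℕ) : F := ∏ b ∈ range i, (2 * ((b : F) + 1)) / (2 * ((b : F) + 1) + 1)

/-- `rr k = binom(2k,k)/4^k` -/
def rr (k : ℕ) : F := (Nat.centralBinom k : F) / 4 ^ k

def p1 (K k : ℕ) : F := H F k - Od F k - 3 * (H F (K - k) - H F (K + k))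

def p2 (K k : ℕ) : F := H2 F k - Od2 F k + 3 * (H2 F (K - k) + H2 F (K + k))

/-- the term of the node `-k`, `0 ≤ k ≤ K` -/
def TN (K k : ℕ) : F :=
  rr F k * (((K - k : ℕ) : F) ^ 2 * ((p1 F K k) ^ 2 + p2 F K k) / 2
    + 2 * ((K - k : ℕ) : F) * p1 F K k + 1)

/-- the term of the node `i+1`, `0 ≤ i < K` -/
def TP (K i : ℕ) : F :=
  2 * Q F i * (((K + i + 1 : ℕ) : F) ^ 2 *
      (H F i - Od F (i + 1) - 3 * (H F (K + i + 1) - H F (K - (i + 1))))
    + 2 * ((K + i + 1 : ℕ) : F))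

/-- the sum of all terms; this is `(2K)!^3` times the sum of the residues -/
def J (K : ℕ) : F :=
  (∑ k ∈ range (K + 1), (-1) ^ (K + k) * ((2 * K).choose (K + k) : F) ^ 3 * TN F K k)
  + ∑ i ∈ range K, (-1) ^ (K - (i + 1)) * ((2 * K).choose (K + i + 1) : F) ^ 3 * TP F K i

end

/-- `p` is a Wieferich prime (primality is a separate hypothesis). -/
def Wf (p : ℕ) : Prop := p ^ 2 ∣ 2 ^ (p - 1) - 1

instance : DecidablePred Wf := fun p => inferInstanceAs (Decidable (p ^ 2 ∣ 2 ^ (p - 1) - 1))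

end Pool.Agent.H11.NW
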