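import Pool.Agent.H11.NW.Defs

/-!
# NW: half harmonic sums modulo a Wieferich prime and the polynomial `f` (helper98)

For a Wieferich prime `p > 3` the sums of `1/j` and of `1/j^2` over `1 ≤ j ≤ (p-1)/2` vanish modulo
`p`; the polynomial `f = ∏ (1 - X/j)` satisfies `(2X+1) f(X+1) = 2X f(X)`.
-/

set_option autoImplicit false

namespace Pool.Agent.H11.NW

open Finset Polynomial

/-- `C(p-1,k) = (-1)^k` in `ZMod p`. -/
lemma choose_pred (p : ℕ) [hp : Fact p.Prime] (k : ℕ) (hk : k < p) :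
    (((p - 1).choose k : ℕ) : ZMod p) = (-1) ^ k := by
  induction k with
  | zero => simp
  | succ k ih =>
    have h1 : ((p - 1).choose k + (p - 1).choose (k + 1)) = p.choose (k + 1) := by
      have : p = (p - 1) + 1 := by have := hp.out.one_lt; omega
      conv_rhs => rw [this]
      rw [Nat.choose_succ_succ]
    have h2 : ((p.choose (k + 1) : ℕ) : ZMod p) = 0 := by
      rw [ZMod.natCast_eq_zero_iff]
      exact hp.out.dvd_choose_self (by omega) hk
    have h3 := congrArg (fun n : ℕ => (n : ZMod p)) h1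
    simp only [Nat.cast_add] at h3
    rw [h2, ih (by omega)] at h3
    rw [pow_succ]
    linear_combination h3

lemma sum_alt (p : ℕ) [hp : Fact p.Prime] (hW : p ^ 2 ∣ 2 ^ (p - 1) - 1) :
    ∑ k ∈ range (p - 1), ((-1 : ZMod p)) ^ k * ((k : ZMod p) + 1)⁻¹ = 0 := by
  have hp0 : 0 < p := hp.out.pos
  have hc : ∀ k ∈ range (p - 1), p.choose (k + 1) = p * (p.choose (k + 1) / p) := by
    intro k hk
    have hk' := mem_range.1 hk
    exact (Nat.mul_div_cancel' (hp.out.dvd_choose_self (by omega) (by omega))).symm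
  have h1 : ∑ k ∈ range (p - 1), p.choose (k + 1) + 2 = 2 ^ p := by
    have h2 := Nat.sum_range_choose p
    have h3 : p + 1 = (p - 1) + 1 + 1 := by have := hp.out.one_lt; omega
    rw [h3, sum_range_succ, sum_range_succ'] at h2
    have h4 : (p - 1) + 1 = p := by have := hp.out.one_lt; omega
    rw [h4, Nat.choose_self, Nat.choose_zero_right] at h2
    omega
  have h2 : p ^ 2 ∣ ∑ k ∈ range (p - 1), p.choose (k + 1) := by
    have h3 : ∑ k ∈ range (p - 1), p.choose (k + 1) = 2 * (2 ^ (p - 1) - 1) := by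
      have h5 : 2 ^ p = 2 * 2 ^ (p - 1) := by
        rw [← pow_succ']
        congr 1
        have := hp.out.one_lt; omega
      have h6 : 1 ≤ 2 ^ (p - 1) := Nat.one_le_two_pow
      omega
    rw [h3]
    exact Dvd.dvd.mul_left hW 2
  have h3 : ∑ k ∈ range (p - 1), p.choose (k + 1) =
      p * ∑ k ∈ range (p - 1), (p.choose (k + 1) / p) := by
    rw [mul_sum]
    exact sum_congr rfl hc
  have h4 : p ∣ ∑ k ∈ range (p - 1), (p.choose (k + 1) / p) := by
    rw [h3, pow_two] at h2
    exact Nat.dvd_of_mul_dvd_mul_left hp0 h2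
  have h5 : ((∑ k ∈ range (p - 1), (p.choose (k + 1) / p) : ℕ) : ZMod p) = 0 := by
    rw [ZMod.natCast_eq_zero_iff]; exact h4
  rw [Nat.cast_sum] at h5
  rw [← h5]
  refine sum_congr rfl fun k hk => ?_
  have hk' := mem_range.1 hk
  have hne : ((k : ZMod p) + 1) ≠ 0 := by
    intro h
    have : ((k + 1 : ℕ) : ZMod p) = 0 := by push_cast; exact h
    rw [ZMod.natCast_eq_zero_iff] at this
    exact absurd (Nat.le_of_dvd (by omega) this) (by omega)
  have h6 : (k + 1) * (p.choose (k + 1) / p) = (p - 1).choose k := by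
    have h7 : p * (p - 1).choose k = p.choose (k + 1) * (k + 1) := by
      have := Nat.add_one_mul_choose_eq (p - 1) k
      have h8 : p - 1 + 1 = p := by have := hp.out.one_lt; omega
      rw [h8] at this
      exact this
    have h9 := hc k hk
    rw [h9] at h7
    have h10 : p * ((k + 1) * (p.choose (k + 1) / p)) = p * (p - 1).choose k := by
      rw [h7]
      have : p * (p.choose (k + 1) / p) / p = p.choose (k + 1) / p := Nat.mul_div_cancel_left _ hp0
      ring_nf
    exact Nat.eq_of_mul_eq_mul_left hp0 h10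
  have h7 := congrArg (fun n : ℕ => (n : ZMod p)) h6
  simp only [Nat.cast_mul, Nat.cast_add, Nat.cast_one] at h7
  rw [choose_pred p k (by omega)] at h7
  rw [← h7]
  field_simp

lemma sum_inv_univ (p : ℕ) [hp : Fact p.Prime] (h3 : 3 ≤ p) :
    ∑ k ∈ range (p - 1), ((k : ZMod p) + 1)⁻¹ = 0 := by
  have h1 := sum_range_reflect (fun k => ((k : ZMod p) + 1)⁻¹) (p - 1)
  have h2 : ∑ k ∈ range (p - 1), (((p - 1 - 1 - k : ℕ) : ZMod p) + 1)⁻¹ =
      - ∑ k ∈ range (p - 1), ((k : ZMod p) + 1)⁻¹ := by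
    rw [← sum_neg_distrib]
    refine sum_congr rfl fun k hk => ?_
    have hk' := mem_range.1 hk
    have h4 : (((p - 1 - 1 - k : ℕ) : ZMod p) + 1) = -((k : ZMod p) + 1) := by
      have h5 : ((p - 1 - 1 - k + (k + 2) : ℕ) : ZMod p) = 0 := by
        have : p - 1 - 1 - k + (k + 2) = p := by omega
        rw [this]; exact ZMod.natCast_self p
      push_cast at h5
      linear_combination h5
    rw [h4, inv_neg]
  rw [h2] at h1
  have h3 : (2 : ZMod p) ≠ 0 := by
    intro h
    have : ((2 : ℕ) : ZMod p) = 0 := by exact_mod_cast h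
    rw [ZMod.natCast_eq_zero_iff] at this
    exact absurd (Nat.le_of_dvd (by omega) this) (by omega)
  have h4 : (2 : ZMod p) * ∑ k ∈ range (p - 1), ((k : ZMod p) + 1)⁻¹ = 0 := by
    linear_combination (-1 : ZMod p) * h1
  exact (mul_eq_zero.1 h4).resolve_left h3

/-- Wieferich primes: the half harmonic number vanishes -/
theorem harm_one_aux (p : ℕ) [hp : Fact p.Prime] (h3 : 3 ≤ p) (hW : p ^ 2 ∣ 2 ^ (p - 1) - 1) :
    ∑ j ∈ range (p / 2), ((j : ZMod p) + 1)⁻¹ = 0 := by
  have h0 := sum_alt p hW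
  have h1 := sum_inv_univ p h3
  have hodd : Odd p := hp.out.odd_of_ne_two (by omega)
  obtain ⟨M, hM⟩ := hodd
  have hM2 : p / 2 = M := by omega
  have hp1 : p - 1 = 2 * M := by omega
  rw [hM2]
  rw [hp1] at h0 h1
  have hsplit : ∀ g : ℕ → ZMod p, ∑ k ∈ range (2 * M), g k =
      ∑ j ∈ range M, (g (2 * j) + g (2 * j + 1)) := by
    intro g
    clear h0 h1 hM hM2 hp1
    induction M with
    | zero => simp
    | succ n ih => rw [mul_add, mul_one, sum_range_succ, sum_range_succ, ih, sum_range_succ]; ring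
  rw [hsplit] at h0 h1
  have h2 : (2 : ZMod p) ≠ 0 := by
    intro h
    have : ((2 : ℕ) : ZMod p) = 0 := by exact_mod_cast h
    rw [ZMod.natCast_eq_zero_iff] at this
    exact absurd (Nat.le_of_dvd (by omega) this) (by omega)
  have h4 : ∑ j ∈ range M, (((2 * j : ℕ) : ZMod p) + 1)⁻¹ + ∑ j ∈ range M, (((2 * j + 1 : ℕ) : ZMod p) + 1)⁻¹ = 0 := by
    rw [← sum_add_distrib]; exact h1
  have h5 : ∑ j ∈ range M, (((2 * j : ℕ) : ZMod p) + 1)⁻¹ - ∑ j ∈ range M, (((2 * j + 1 : ℕ) : ZMod p) + 1)⁻¹ = 0 := by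
    rw [← sum_sub_distrib, ← h0]
    refine sum_congr rfl fun j _ => ?_
    have e : ((-1 : ZMod p)) ^ (2 * j) = 1 := by rw [pow_mul]; simp
    rw [pow_succ, e]
    ring
  have h6 : ∑ j ∈ range M, (((2 * j + 1 : ℕ) : ZMod p) + 1)⁻¹ =
      2⁻¹ * ∑ j ∈ range M, ((j : ZMod p) + 1)⁻¹ := by
    rw [mul_sum]
    refine sum_congr rfl fun j _ => ?_
    rw [← mul_inv]
    congr 1
    push_cast
    ring
  have h7 : (2 : ZMod p) * ∑ j ∈ range M, (((2 * j + 1 : ℕ) : ZMod p) + 1)⁻¹ = 0 := by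
    linear_combination h4 - h5
  rw [h6, ← mul_assoc, mul_inv_cancel₀ h2, one_mul] at h7
  exact h7

/-- the half sum of the inverse squares vanishes for `p ≥ 5` -/
theorem harm_two_aux (p : ℕ) [hp : Fact p.Prime] (h5 : 5 ≤ p) :
    ∑ j ∈ range (p / 2), (((j : ZMod p) + 1)⁻¹) ^ 2 = 0 := by
  have hodd : Odd p := hp.out.odd_of_ne_two (by omega)
  obtain ⟨M, hM⟩ := hodd
  have hM2 : p / 2 = M := by omega
  have h2 : (2 : ZMod p) ≠ 0 := by
    intro h
    have : ((2 : ℕ) : ZMod p) = 0 := by exact_mod_cast h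
    rw [ZMod.natCast_eq_zero_iff] at this
    exact absurd (Nat.le_of_dvd (by omega) this) (by omega)
  -- total sum
  have hfull : ∑ k ∈ range (p - 1), (((k : ZMod p) + 1)⁻¹) ^ 2 = 0 := by
    have h6 : ∑ x : ZMod p, x ^ (p - 3) = 0 := by
      apply FiniteField.sum_pow_lt_card_sub_one
      rw [ZMod.card]; omega
    have h7 : ∑ x : ZMod p, x ^ (p - 3) = ∑ k ∈ range p, ((k : ZMod p)) ^ (p - 3) := by
      have h8 : ∀ g : ZMod p → ZMod p, ∑ x : ZMod p, g x = ∑ k ∈ range p, g (k : ZMod p) := by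
        intro g
        symm
        refine sum_bij (fun (k : ℕ) (_ : k ∈ range p) => (k : ZMod p)) ?_ ?_ ?_ ?_
        · intro k _; exact mem_univ _
        · intro a ha b hb hab
          have := (ZMod.natCast_eq_natCast_iff' a b p).1 hab
          rwa [Nat.mod_eq_of_lt (mem_range.1 ha), Nat.mod_eq_of_lt (mem_range.1 hb)] at this
        · intro x _
          exact ⟨x.val, mem_range.2 (ZMod.val_lt x), ZMod.natCast_zmod_val x⟩
        · intro k _; rfl
      exact h8 _
    rw [h7] at h6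
    have h9 : ∑ k ∈ range ((p - 1) + 1), ((k : ZMod p)) ^ (p - 3) = 0 := by
      rw [show (p - 1) + 1 = p by omega]; exact h6
    rw [sum_range_succ'] at h9
    simp only [Nat.cast_zero] at h9
    rw [zero_pow (by omega), add_zero] at h9
    rw [← h9]
    refine sum_congr rfl fun k hk => ?_
    have hk' := mem_range.1 hk
    have hne : ((k : ZMod p) + 1) ≠ 0 := by
      intro h
      have : ((k + 1 : ℕ) : ZMod p) = 0 := by push_cast; exact h
      rw [ZMod.natCast_eq_zero_iff] at this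
      exact absurd (Nat.le_of_dvd (by omega) this) (by omega)
    have h10 : ((k : ZMod p) + 1) ^ (p - 1) = 1 := ZMod.pow_card_sub_one_eq_one hne
    have h11 : ((k : ZMod p) + 1) ^ (p - 1) = ((k : ZMod p) + 1) ^ (p - 3) * ((k : ZMod p) + 1) ^ 2 := by
      rw [← pow_add]; congr 1; omega
    rw [h11] at h10
    push_cast
    rw [inv_pow]
    exact (eq_inv_of_mul_eq_one_left h10).symm
  have hp1 : p - 1 = M + M := by omega
  rw [hM2]
  rw [hp1, sum_range_add] at hfull
  have hrefl : ∑ x ∈ range M, ((((M + x : ℕ) : ZMod p) + 1)⁻¹) ^ 2 =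
      ∑ j ∈ range M, (((j : ZMod p) + 1)⁻¹) ^ 2 := by
    rw [← sum_range_reflect (fun j => (((j : ZMod p) + 1)⁻¹) ^ 2) M]
    refine sum_congr rfl fun k hk => ?_
    have hk' := mem_range.1 hk
    have h12 : (((M + k : ℕ) : ZMod p) + 1) = -(((M - 1 - k : ℕ) : ZMod p) + 1) := by
      have h5 : ((M + k + 1 + (M - 1 - k + 1) : ℕ) : ZMod p) = 0 := by
        have : M + k + 1 + (M - 1 - k + 1) = p := by omega
        rw [this]; exact ZMod.natCast_self p
      push_cast at h5 ⊢
      linear_combination h5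
    rw [h12, inv_neg, neg_sq]
  rw [hrefl] at hfull
  have h13 : (2 : ZMod p) * ∑ j ∈ range M, (((j : ZMod p) + 1)⁻¹) ^ 2 = 0 := by
    linear_combination hfull
  exact (mul_eq_zero.1 h13).resolve_left h2


theorem harm_zero (p : ℕ) [Fact p.Prime] (hp : 3 < p) (hw : Wf p) :
    H (ZMod p) ((p - 1) / 2) = 0 := by
  have hpr : p.Prime := Fact.out
  obtain ⟨M, hM⟩ := hpr.odd_of_ne_two (by omega)
  have h1 := harm_one_aux p (by omega) hw
  have h2 : (p - 1) / 2 = p / 2 := by omega
  rw [h2, H, ← h1]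
  exact sum_congr rfl fun j _ => one_div _

theorem harm2_zero (p : ℕ) [Fact p.Prime] (hp : 3 < p) :
    H2 (ZMod p) ((p - 1) / 2) = 0 := by
  have hpr : p.Prime := Fact.out
  obtain ⟨M, hM⟩ := hpr.odd_of_ne_two (by omega)
  have h5 : 5 ≤ p := by
    rcases Nat.lt_or_ge p 5 with h | h
    · exfalso
      have : p = 4 := by omega
      omega
    · exact h
  have h1 := harm_two_aux p h5
  have h2 : (p - 1) / 2 = p / 2 := by omega
  rw [h2, H2, ← h1]
  refine sum_congr rfl fun j _ => ?_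
  rw [one_div, inv_pow]

lemma coeff_mul_one_sub {K : Type} [Field K] (P : K[X]) (a : K) (n : ℕ) :
    (P * (1 - C a * X)).coeff (n + 1) = P.coeff (n + 1) - a * P.coeff n := by
  have : P * (1 - C a * X) = P - C a * P * X := by ring
  rw [this, coeff_sub, coeff_mul_X, coeff_C_mul]

lemma coeff_mul_one_sub_zero {K : Type} [Field K] (P : K[X]) (a : K) :
    (P * (1 - C a * X)).coeff 0 = P.coeff 0 := by
  have : P * (1 - C a * X) = P - C a * P * X := by ring
  rw [this, coeff_sub, coeff_mul_X_zero, sub_zero]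

lemma jet_prod {K : Type} [Field K] (n : ℕ) (a : ℕ → K) :
    (∏ i ∈ range n, (1 - C (a i) * X)).coeff 0 = 1 ∧
    (∏ i ∈ range n, (1 - C (a i) * X)).coeff 1 = - ∑ i ∈ range n, a i ∧
    2 * (∏ i ∈ range n, (1 - C (a i) * X)).coeff 2 =
      (∑ i ∈ range n, a i) ^ 2 - ∑ i ∈ range n, a i ^ 2 := by
  induction n with
  | zero => simp [coeff_one]
  | succ n ih =>
    obtain ⟨h0, h1, h2⟩ := ih
    rw [prod_range_succ, sum_range_succ, sum_range_succ]
    have e1 := coeff_mul_one_sub (∏ i ∈ range n, (1 - C (a i) * X)) (a n) 0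
    have e2 := coeff_mul_one_sub (∏ i ∈ range n, (1 - C (a i) * X)) (a n) 1
    rw [zero_add] at e1
    rw [coeff_mul_one_sub_zero, e1, e2, h1, h0]
    refine ⟨rfl, by ring, ?_⟩
    have h2' : 2 * (∏ i ∈ range n, (1 - C (a i) * X)).coeff (1 + 1) =
        (∑ i ∈ range n, a i) ^ 2 - ∑ i ∈ range n, a i ^ 2 := h2
    linear_combination h2'

lemma prod_shift {K : Type} [Field K] (n : ℕ) :
    (∏ j ∈ range n, (C ((j : K) + 1) - X)) * (-X) =
      (∏ j ∈ range n, (C (j : K) - X)) * (C (n : K) - X) := by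
  induction n with
  | zero => simp
  | succ n ih =>
    rw [prod_range_succ, prod_range_succ]
    have e : (C (((n + 1 : ℕ)) : K) : K[X]) = C ((n : K) + 1) := by push_cast; rfl
    rw [e]
    calc (∏ j ∈ range n, (C ((j : K) + 1) - X)) * (C ((n : K) + 1) - X) * (-X)
        = ((∏ j ∈ range n, (C ((j : K) + 1) - X)) * (-X)) * (C ((n : K) + 1) - X) := by ring
      _ = _ := by rw [ih]

/-- the polynomial `f = prod_(j=1..M) (1 - X/j)`, `M = (p-1)/2` -/
theorem exists_poly (p : ℕ) [Fact p.Prime] (hp : 3 < p) :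
    ∃ f : (ZMod p)[X], f.natDegree ≤ (p - 1) / 2 ∧ f.coeff 0 = 1 ∧
      f.coeff 1 = - H (ZMod p) ((p - 1) / 2) ∧
      f.coeff 2 = ((H (ZMod p) ((p - 1) / 2)) ^ 2 - H2 (ZMod p) ((p - 1) / 2)) / 2 ∧
      (2 * X + 1) * f.comp (X + 1) = 2 * X * f := by
  have hpr : p.Prime := Fact.out
  obtain ⟨M', hM⟩ := hpr.odd_of_ne_two (by omega)
  obtain ⟨M, hMd⟩ : ∃ M, M = (p - 1) / 2 := ⟨_, rfl⟩
  have hM2 : 2 * M + 1 = p := by omega
  rw [← hMd]
  have hne : ∀ j : ℕ, j < M → ((j : ZMod p) + 1) ≠ 0 := by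
    intro j hj h
    have h1 : ((j + 1 : ℕ) : ZMod p) = 0 := by push_cast; exact h
    rw [ZMod.natCast_eq_zero_iff] at h1
    exact absurd (Nat.le_of_dvd (by omega) h1) (by omega)
  have h2 : (2 : ZMod p) ≠ 0 := by
    intro h
    have : ((2 : ℕ) : ZMod p) = 0 := by exact_mod_cast h
    rw [ZMod.natCast_eq_zero_iff] at this
    exact absurd (Nat.le_of_dvd (by omega) this) (by omega)
  obtain ⟨j0, j1, j2⟩ := jet_prod M fun j => 1 / ((j : ZMod p) + 1)
  refine ⟨∏ j ∈ range M, (1 - C (1 / ((j : ZMod p) + 1)) * X), ?_, j0, j1, ?_, ?_⟩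
  · refine le_trans (natDegree_prod_le _ _) ?_
    refine le_trans (sum_le_card_nsmul _ _ 1 fun j _ => ?_) (by simp)
    refine le_trans (natDegree_sub_le _ _) ?_
    rw [natDegree_one]
    exact max_le (by omega) (le_trans (natDegree_C_mul_le _ _) natDegree_X_le)
  · rw [eq_div_iff h2, mul_comm, j2, H, H2]
    congr 1
    refine sum_congr rfl fun j _ => ?_
    rw [div_pow, one_pow]
  · have e1 : (∏ j ∈ range M, (1 - C (1 / ((j : ZMod p) + 1)) * X)) =
        (∏ j ∈ range M, C (1 / ((j : ZMod p) + 1))) *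
          ∏ j ∈ range M, (C ((j : ZMod p) + 1) - X) := by
      rw [← prod_mul_distrib]
      refine prod_congr rfl fun j hj => ?_
      have := hne j (mem_range.1 hj)
      rw [mul_sub, ← C_mul, one_div_mul_cancel this, C_1]
    have e2 : (∏ j ∈ range M, (1 - C (1 / ((j : ZMod p) + 1)) * X)).comp (X + 1) =
        (∏ j ∈ range M, C (1 / ((j : ZMod p) + 1))) *
          ∏ j ∈ range M, (C (j : ZMod p) - X) := by
      rw [Polynomial.prod_comp, ← prod_mul_distrib]
      refine prod_congr rfl fun j hj => ?_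
      have h3 := hne j (mem_range.1 hj)
      rw [sub_comp, one_comp, mul_comp, C_comp, X_comp]
      have h4 : (1 : (ZMod p)[X]) = C (1 / ((j : ZMod p) + 1)) * (C (j : ZMod p) + 1) := by
        rw [← C_1, ← C_add, ← C_mul, one_div_mul_cancel h3]
      linear_combination h4
    rw [e2, e1]
    have e3 := prod_shift (K := ZMod p) M
    have h5 : (2 * C (M : ZMod p) : (ZMod p)[X]) = -1 := by
      have h6 : ((2 * M + 1 : ℕ) : ZMod p) = 0 := by rw [hM2]; exact ZMod.natCast_self p
      have h7 : (2 : ZMod p) * (M : ZMod p) = -1 := by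
        push_cast at h6
        linear_combination h6
      have h8 : (2 * C (M : ZMod p) : (ZMod p)[X]) = C (2 * (M : ZMod p)) := by
        rw [C_mul]; congr 1
      rw [h8, h7, C_neg, C_1]
    linear_combination (2 * ∏ j ∈ range M, C (1 / ((j : ZMod p) + 1))) * e3 +
      ((∏ j ∈ range M, C (1 / ((j : ZMod p) + 1))) * ∏ j ∈ range M, (C (j : ZMod p) - X)) * h5

end Pool.Agent.H11.NW
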