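import Pool.Agent.H11.NW.Defs

/-!
# Residue lemma for triple nodes

For a finite set `s` of a field with `2 ≠ 0` and a polynomial `h` with `deg h + 2 ≤ 3 |s|`, the sum of the
residues of `h / ∏ (X - a)^3` is zero, written out explicitly.
-/

set_option autoImplicit false

namespace Pool.Agent.H11.NW

open Finset Polynomial

variable {F : Type*} [Field F]

/-- `u = c0 (1 + c1 x + (c1^2 + c2)/2 x^2) mod x^3`. -/
def HJet (u : F[X]) (c0 c1 c2 : F) : Prop :=
  u.coeff 0 = c0 ∧ u.coeff 1 = c0 * c1 ∧ 2 * u.coeff 2 = c0 * (c1 ^ 2 + c2)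

theorem coeff_two_mul (u v : F[X]) :
    (u * v).coeff 2 = u.coeff 0 * v.coeff 2 + u.coeff 1 * v.coeff 1 + u.coeff 2 * v.coeff 0 := by
  rw [Polynomial.coeff_mul]
  simp [Finset.Nat.antidiagonal_succ, add_assoc]

theorem coeff_one_mul' (u v : F[X]) :
    (u * v).coeff 1 = u.coeff 0 * v.coeff 1 + u.coeff 1 * v.coeff 0 := by
  rw [Polynomial.coeff_mul]
  simp [Finset.Nat.antidiagonal_succ]

theorem HJet.mul {u v : F[X]} {c0 c1 c2 d0 d1 d2 : F} (hu : HJet u c0 c1 c2)
    (hv : HJet v d0 d1 d2) : HJet (u * v) (c0 * d0) (c1 + d1) (c2 + d2) := by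
  obtain ⟨h0, h1, h2⟩ := hu
  obtain ⟨k0, k1, k2⟩ := hv
  refine ⟨?_, ?_, ?_⟩
  · rw [Polynomial.mul_coeff_zero, h0, k0]
  · rw [coeff_one_mul', h0, h1, k0, k1]; ring
  · rw [coeff_two_mul, mul_add, mul_add]
    have e1 : 2 * (u.coeff 0 * v.coeff 2) = u.coeff 0 * (2 * v.coeff 2) := by ring
    have e2 : 2 * (u.coeff 2 * v.coeff 0) = (2 * u.coeff 2) * v.coeff 0 := by ring
    rw [e1, e2, h2, k2, h0, h1, k0, k1]; ring

theorem HJet.one : HJet (1 : F[X]) 1 0 0 := by
  refine ⟨by simp, ?_, ?_⟩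
  · rw [Polynomial.coeff_one]; simp
  · rw [Polynomial.coeff_one]; simp

theorem HJet.linear (m : F) (hm : m ≠ 0) : HJet (X + C m : F[X]) m m⁻¹ (-(m⁻¹ ^ 2)) := by
  refine ⟨by simp, ?_, ?_⟩
  · simp [hm]
  · simp [Polynomial.coeff_X]

theorem HJet.prod {ι : Type*} (s : Finset ι) (u : ι → F[X]) (c0 c1 c2 : ι → F)
    (h : ∀ i ∈ s, HJet (u i) (c0 i) (c1 i) (c2 i)) :
    HJet (∏ i ∈ s, u i) (∏ i ∈ s, c0 i) (∑ i ∈ s, c1 i) (∑ i ∈ s, c2 i) := by
  classical
  induction s using Finset.induction_on with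
  | empty => simpa using HJet.one
  | insert a s ha ih =>
    rw [Finset.prod_insert ha, Finset.prod_insert ha, Finset.sum_insert ha, Finset.sum_insert ha]
    exact (h a (Finset.mem_insert_self a s)).mul
      (ih fun i hi => h i (Finset.mem_insert_of_mem hi))

theorem HJet.pow3 {u : F[X]} {c0 c1 c2 : F} (hu : HJet u c0 c1 c2) :
    HJet (u ^ 3) (c0 ^ 3) (3 * c1) (3 * c2) := by
  have h := (hu.mul hu).mul hu
  have e : u * u * u = u ^ 3 := by ring
  rw [e] at h
  convert h using 1 <;> ring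

section Herm

variable [DecidableEq F]

/-- `∑_{b ∈ s, b ≠ a} (a - b)^(-i)`. -/
def SS (s : Finset F) (i : ℕ) (a : F) : F := ∑ b ∈ s.erase a, ((a - b)⁻¹) ^ i

/-- `∏_{b ∈ s, b ≠ a} (a - b)^(-3)`. -/
def ww (s : Finset F) (a : F) : F := ∏ b ∈ s.erase a, ((a - b)⁻¹) ^ 3

omit [DecidableEq F] in
theorem taylor_prod' {ι : Type*} (a : F) (s : Finset ι) (g : ι → F[X]) :
    taylor a (∏ i ∈ s, g i) = ∏ i ∈ s, taylor a (g i) := map_prod (taylorAlgHom a) g s

theorem hjet_node (s : Finset F) (a : F) :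
    HJet (taylor a (∏ b ∈ s.erase a, (X - C b) ^ 3)) (∏ b ∈ s.erase a, (a - b) ^ 3)
      (3 * SS s 1 a) (-(3 * SS s 2 a)) := by
  have h1 : taylor a (∏ b ∈ s.erase a, (X - C b) ^ 3) = ∏ b ∈ s.erase a, (X + C (a - b)) ^ 3 := by
    rw [taylor_prod']
    refine Finset.prod_congr rfl fun b _ => ?_
    rw [taylor_pow, map_sub, taylor_X, taylor_C, C_sub]
    ring
  rw [h1]
  have h2 := HJet.prod (s.erase a) (fun b => (X + C (a - b) : F[X]) ^ 3) (fun b => (a - b) ^ 3)
    (fun b => 3 * (a - b)⁻¹) (fun b => 3 * (-((a - b)⁻¹ ^ 2))) (fun b hb => by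
      have hne : a - b ≠ 0 := sub_ne_zero.mpr (Finset.ne_of_mem_erase hb).symm
      exact (HJet.linear (a - b) hne).pow3)
  convert h2 using 1
  · rw [SS, Finset.mul_sum]
    refine Finset.sum_congr rfl fun b _ => by rw [pow_one]
  · rw [SS, Finset.mul_sum, ← Finset.sum_neg_distrib]
    refine Finset.sum_congr rfl fun b _ => by ring

theorem ww_mul (s : Finset F) (a : F) : ww s a * ∏ b ∈ s.erase a, (a - b) ^ 3 = 1 := by
  rw [ww, ← Finset.prod_mul_distrib]
  refine Finset.prod_eq_one fun b hb => ?_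
  have hne : a - b ≠ 0 := sub_ne_zero.mpr (Finset.ne_of_mem_erase hb).symm
  field_simp

omit [DecidableEq F] in
theorem dvd_iff_taylor (a : F) (q : F[X]) : (X - C a) ^ 3 ∣ q ↔ X ^ 3 ∣ taylor a q := by
  have h := map_dvd_iff (taylorEquiv a) (a := (X - C a : F[X]) ^ 3) (b := q)
  rw [← h]
  have e : taylorEquiv a ((X - C a : F[X]) ^ 3) = X ^ 3 := by
    change taylor a ((X - C a : F[X]) ^ 3) = X ^ 3
    rw [taylor_pow, map_sub, taylor_X, taylor_C, add_sub_cancel_right]
  rw [e]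
  exact Iff.rfl

/-- The sum of the residues of `h / ∏ (X - a)^3` at the nodes is zero when `deg h + 2 ≤ 3 |s|`. -/
theorem herm_sum (h2 : (2 : F) ≠ 0) (s : Finset F) (h : F[X]) (hd : h.natDegree + 2 ≤ 3 * s.card) :
    ∑ a ∈ s, ww s a * ((taylor a h).coeff 2 + (-(3 * SS s 1 a)) * (taylor a h).coeff 1
      + ((9 * SS s 1 a ^ 2 + 3 * SS s 2 a) / 2) * (taylor a h).coeff 0) = 0 := by
  classical
  set P : F → F[X] := fun a => ∏ b ∈ s.erase a, (X - C b) ^ 3 with hP
  set c0 : F → F := fun a => ww s a * (taylor a h).coeff 0 with hc0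
  set c1 : F → F := fun a => ww s a * ((taylor a h).coeff 1
    + (-(3 * SS s 1 a)) * (taylor a h).coeff 0) with hc1
  set c2 : F → F := fun a => ww s a * ((taylor a h).coeff 2
    + (-(3 * SS s 1 a)) * (taylor a h).coeff 1
    + ((9 * SS s 1 a ^ 2 + 3 * SS s 2 a) / 2) * (taylor a h).coeff 0) with hc2
  set G : F → F[X] := fun a => C (c2 a) * (X - C a) ^ 2 + C (c1 a) * (X - C a) + C (c0 a) with hG
  set D : F[X] := h - ∑ a ∈ s, G a * P a with hD
  -- local divisibility
  have hloc : ∀ a ∈ s, (X - C a) ^ 3 ∣ h - G a * P a := by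
    intro a ha
    rw [dvd_iff_taylor, map_sub, taylor_mul]
    have hGt : taylor a (G a) = C (c2 a) * X ^ 2 + C (c1 a) * X + C (c0 a) := by
      simp only [hG, map_add, taylor_mul, taylor_pow, map_sub, taylor_X, taylor_C,
        add_sub_cancel_right]
    obtain ⟨k0, k1, k2⟩ := hjet_node s a
    have hPt : taylor a (P a) = taylor a (∏ b ∈ s.erase a, (X - C b) ^ 3) := rfl
    rw [hGt, hPt]
    set Q := taylor a (∏ b ∈ s.erase a, (X - C b) ^ 3) with hQ
    set W := ∏ b ∈ s.erase a, (a - b) ^ 3 with hW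
    have hwW : ww s a * W = 1 := ww_mul s a
    have hG0 : (C (c2 a) * X ^ 2 + C (c1 a) * X + C (c0 a) : F[X]).coeff 0 = c0 a := by simp
    have hG1 : (C (c2 a) * X ^ 2 + C (c1 a) * X + C (c0 a) : F[X]).coeff 1 = c1 a := by
      rw [coeff_add, coeff_add, coeff_C_mul, coeff_C_mul, coeff_X_pow, coeff_X, coeff_C]
      simp
    have hG2 : (C (c2 a) * X ^ 2 + C (c1 a) * X + C (c0 a) : F[X]).coeff 2 = c2 a := by
      rw [coeff_add, coeff_add, coeff_C_mul, coeff_C_mul, coeff_X_pow, coeff_X, coeff_C]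
      simp
    rw [X_pow_dvd_iff]
    intro d hd3
    rw [coeff_sub]
    interval_cases d
    · rw [mul_coeff_zero, hG0, k0]
      simp only [hc0]
      linear_combination (-(taylor a h).coeff 0) * hwW
    · rw [coeff_one_mul', hG0, hG1, k0, k1]
      simp only [hc0, hc1]
      linear_combination (-(taylor a h).coeff 1) * hwW
    · have key : 2 * ((taylor a h).coeff 2 - ((C (c2 a) * X ^ 2 + C (c1 a) * X + C (c0 a)) * Q).coeff 2) = 0 := by
        rw [coeff_two_mul, hG0, hG1, hG2, k0, k1]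
        have e : 2 * ((taylor a h).coeff 2 - (c0 a * Q.coeff 2 + c1 a * (W * (3 * SS s 1 a)) + c2 a * W))
            = 2 * (taylor a h).coeff 2 - (c0 a * (2 * Q.coeff 2) + 2 * c1 a * (W * (3 * SS s 1 a))
              + 2 * c2 a * W) := by ring
        rw [e, k2]
        simp only [hc0, hc1, hc2]
        field_simp
        linear_combination (-2 * (taylor a h).coeff 2) * hwW
      exact (mul_eq_zero.mp key).resolve_left h2
  have hdvd : ∀ a ∈ s, (X - C a) ^ 3 ∣ D := by
    intro a ha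
    have e : D = (h - G a * P a) - ∑ b ∈ s.erase a, G b * P b := by
      rw [hD, ← Finset.add_sum_erase s _ ha]; ring
    rw [e]
    refine dvd_sub (hloc a ha) (Finset.dvd_sum fun b hb => ?_)
    refine Dvd.dvd.mul_left ?_ _
    exact Finset.dvd_prod_of_mem (fun c => (X - C c : F[X]) ^ 3)
      (Finset.mem_erase.mpr ⟨(Finset.ne_of_mem_erase hb).symm, ha⟩)
  have hprod : ∏ a ∈ s, (X - C a : F[X]) ^ 3 ∣ D := by
    refine Finset.prod_dvd_of_coprime (fun a _ b _ hab => ?_) hdvd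
    exact (pairwise_coprime_X_sub_C (Function.injective_id (α := F)) hab).pow
  have hcard : 1 ≤ s.card := by omega
  have hPdeg : ∀ a ∈ s, (P a).natDegree ≤ 3 * (s.card - 1) := by
    intro a ha
    simp only [hP]
    refine (natDegree_prod_le _ _).trans ?_
    refine (Finset.sum_le_card_nsmul _ _ 3 fun b _ => ?_).trans ?_
    · refine (natDegree_pow_le).trans ?_
      rw [natDegree_X_sub_C]
    · rw [Finset.card_erase_of_mem ha, smul_eq_mul, mul_comm]
  have hGdeg : ∀ a, (G a).natDegree ≤ 2 := by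
    intro a
    simp only [hG]
    compute_degree
  have hDdeg : D.natDegree < (∏ a ∈ s, (X - C a : F[X]) ^ 3).natDegree := by
    have e : (∏ a ∈ s, (X - C a : F[X]) ^ 3).natDegree = 3 * s.card := by
      rw [natDegree_prod_of_monic _ _ fun a _ => (monic_X_sub_C a).pow 3]
      simp [natDegree_pow, mul_comm]
    rw [e]
    have h1 : D.natDegree ≤ 3 * s.card - 1 := by
      rw [hD]
      refine (natDegree_sub_le _ _).trans (max_le (by omega) ?_)
      refine natDegree_sum_le_of_forall_le _ _ fun a ha => ?_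
      refine natDegree_mul_le.trans ?_
      have := hPdeg a ha
      have := hGdeg a
      omega
    omega
  have hD0 : D = 0 := eq_zero_of_dvd_of_natDegree_lt hprod hDdeg
  have hcoef := congrArg (fun q => q.coeff (2 + 3 * (s.card - 1))) hD0
  simp only [hD, coeff_sub, finsetSum_coeff, coeff_zero] at hcoef
  rw [coeff_eq_zero_of_natDegree_lt (by omega : h.natDegree < 2 + 3 * (s.card - 1)), zero_sub,
    neg_eq_zero] at hcoef
  rw [← hcoef]
  refine Finset.sum_congr rfl fun a ha => ?_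
  rw [coeff_mul_add_eq_of_natDegree_le (hGdeg a) (hPdeg a ha)]
  have hP1 : (P a).coeff (3 * (s.card - 1)) = 1 := by
    have hm : (P a).Monic := monic_prod_of_monic _ _ fun b _ => (monic_X_sub_C b).pow 3
    have hdeg : (P a).natDegree = 3 * (s.card - 1) := by
      simp only [hP]
      rw [natDegree_prod_of_monic _ _ fun b _ => (monic_X_sub_C b).pow 3]
      simp [natDegree_pow, Finset.card_erase_of_mem ha, mul_comm]
    rw [← hdeg]; exact hm
  have hG2 : (G a).coeff 2 = c2 a := by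
    have e : G a = C (c2 a) * X ^ 2 + C (c1 a - 2 * c2 a * a) * X
        + C (c0 a - c1 a * a + c2 a * a ^ 2) := by
      simp only [hG, C_sub, C_add, C_mul, C_pow]
      have : (C (2 : F) : F[X]) = 2 := rfl
      rw [this]
      ring
    rw [e, coeff_add, coeff_add, coeff_C_mul, coeff_C_mul, coeff_X_pow, coeff_X, coeff_C]
    simp
  rw [hP1, hG2, mul_one]

end Herm

theorem residue_three {F : Type} [Field F] [DecidableEq F] (h2 : (2 : F) ≠ 0) (s : Finset F)
    (h : F[X]) (hd : h.natDegree + 2 ≤ 3 * s.card) :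
    ∑ a ∈ s, (∏ b ∈ s.erase a, (a - b))⁻¹ ^ 3 *
      ((taylor a h).coeff 2
        + (-3 * ∑ b ∈ s.erase a, (a - b)⁻¹) * (taylor a h).coeff 1
        + ((9 * (∑ b ∈ s.erase a, (a - b)⁻¹) ^ 2 + 3 * ∑ b ∈ s.erase a, ((a - b)⁻¹) ^ 2) / 2)
          * (taylor a h).coeff 0) = 0 := by
  rw [← herm_sum h2 s h hd]
  refine Finset.sum_congr rfl fun a _ => ?_
  have e1 : (∏ b ∈ s.erase a, (a - b))⁻¹ ^ 3 = ww s a := by
    rw [ww, ← Finset.prod_inv_distrib, Finset.prod_pow]
  have e2 : ∑ b ∈ s.erase a, (a - b)⁻¹ = SS s 1 a := by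
    rw [SS]
    exact Finset.sum_congr rfl fun b _ => (pow_one _).symm
  have e3 : ∑ b ∈ s.erase a, ((a - b)⁻¹) ^ 2 = SS s 2 a := rfl
  rw [e1, e2, e3, neg_mul]

end Pool.Agent.H11.NW
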