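import Pool.Agent.H11.NW.Defs

set_option autoImplicit false

namespace Pool.Agent.H11.NW

open Finset

/-- a rational number which is an integer -/
def IsZ (q : ℚ) : Prop := ∃ z : ℤ, (z : ℚ) = q

theorem IsZ.int (z : ℤ) : IsZ (z : ℚ) := ⟨z, rfl⟩
theorem IsZ.nat (n : ℕ) : IsZ (n : ℚ) := ⟨n, by simp⟩
theorem IsZ.add {a b : ℚ} (ha : IsZ a) (hb : IsZ b) : IsZ (a + b) := by
  obtain ⟨x, rfl⟩ := ha; obtain ⟨y, rfl⟩ := hb; exact ⟨x + y, by push_cast; ring⟩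
theorem IsZ.mul {a b : ℚ} (ha : IsZ a) (hb : IsZ b) : IsZ (a * b) := by
  obtain ⟨x, rfl⟩ := ha; obtain ⟨y, rfl⟩ := hb; exact ⟨x * y, by push_cast; ring⟩
theorem IsZ.sub {a b : ℚ} (ha : IsZ a) (hb : IsZ b) : IsZ (a - b) := by
  obtain ⟨x, rfl⟩ := ha; obtain ⟨y, rfl⟩ := hb; exact ⟨x - y, by push_cast; ring⟩
theorem IsZ.neg {a : ℚ} (ha : IsZ a) : IsZ (-a) := by
  obtain ⟨x, rfl⟩ := ha; exact ⟨-x, by push_cast; ring⟩
theorem IsZ.pow {a : ℚ} (ha : IsZ a) (n : ℕ) : IsZ (a ^ n) := by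
  obtain ⟨x, rfl⟩ := ha; exact ⟨x ^ n, by push_cast; ring⟩
theorem IsZ.sum {ι : Type} (s : Finset ι) (f : ι → ℚ) (h : ∀ i ∈ s, IsZ (f i)) :
    IsZ (∑ i ∈ s, f i) := by
  classical
  induction s using Finset.induction_on with
  | empty => exact ⟨0, by simp⟩
  | insert a s ha ih =>
    rw [Finset.sum_insert ha]
    exact (h a (Finset.mem_insert_self a s)).add (ih fun i hi => h i (Finset.mem_insert_of_mem hi))

theorem isZ_div {N n : ℕ} (h1 : 1 ≤ n) (h2 : n ≤ N) :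
    IsZ ((Nat.lcmUpto N : ℚ) * (1 / (n : ℚ))) := by
  have hd : n ∣ Nat.lcmUpto N := by
    unfold Nat.lcmUpto
    exact Finset.dvd_lcm (f := id) (Finset.mem_Icc.2 ⟨h1, h2⟩)
  obtain ⟨c, hc⟩ := hd
  refine ⟨c, ?_⟩
  have hn : (n : ℚ) ≠ 0 := by positivity
  rw [hc]; push_cast; field_simp

theorem isZ_H {N n : ℕ} (h : n ≤ N) : IsZ ((Nat.lcmUpto N : ℚ) * H ℚ n) := by
  unfold H
  rw [Finset.mul_sum]
  refine IsZ.sum _ _ fun j hj => ?_
  have hj' := Finset.mem_range.1 hj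
  have := isZ_div (N := N) (n := j + 1) (by omega) (by omega)
  push_cast at this
  exact this

theorem isZ_H2 {N n : ℕ} (h : n ≤ N) : IsZ ((Nat.lcmUpto N : ℚ) ^ 2 * H2 ℚ n) := by
  unfold H2
  rw [Finset.mul_sum]
  refine IsZ.sum _ _ fun j hj => ?_
  have hj' := Finset.mem_range.1 hj
  have := (isZ_div (N := N) (n := j + 1) (by omega) (by omega)).pow 2
  push_cast at this
  have e : (Nat.lcmUpto N : ℚ) ^ 2 * (1 / ((j : ℚ) + 1) ^ 2)
      = ((Nat.lcmUpto N : ℚ) * (1 / ((j : ℚ) + 1))) ^ 2 := by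
    rw [mul_pow, div_pow, one_pow]
  rw [e]; exact this

theorem isZ_Od {N n : ℕ} (h : 2 * n ≤ N + 1) : IsZ ((Nat.lcmUpto N : ℚ) * Od ℚ n) := by
  unfold Od
  rw [Finset.mul_sum]
  refine IsZ.sum _ _ fun j hj => ?_
  have hj' := Finset.mem_range.1 hj
  have := (IsZ.nat 2).mul (isZ_div (N := N) (n := 2 * j + 1) (by omega) (by omega))
  push_cast at this
  have e : (Nat.lcmUpto N : ℚ) * (2 / (2 * (j : ℚ) + 1))
      = 2 * ((Nat.lcmUpto N : ℚ) * (1 / (2 * (j : ℚ) + 1))) := by ring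
  rw [e]; exact this

theorem isZ_Od2 {N n : ℕ} (h : 2 * n ≤ N + 1) : IsZ ((Nat.lcmUpto N : ℚ) ^ 2 * Od2 ℚ n) := by
  unfold Od2
  rw [Finset.mul_sum]
  refine IsZ.sum _ _ fun j hj => ?_
  have hj' := Finset.mem_range.1 hj
  have := ((IsZ.nat 2).mul (isZ_div (N := N) (n := 2 * j + 1) (by omega) (by omega))).pow 2
  push_cast at this
  have e : (Nat.lcmUpto N : ℚ) ^ 2 * (4 / (2 * (j : ℚ) + 1) ^ 2)
      = (2 * ((Nat.lcmUpto N : ℚ) * (1 / (2 * (j : ℚ) + 1)))) ^ 2 := by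
    rw [mul_pow, mul_pow, div_pow, one_pow]; ring
  rw [e]; exact this

/-- `L k! m!/(k+m+1)!` is an integer -/
theorem isZ_beta {N : ℕ} (m : ℕ) : ∀ k : ℕ, k + m + 1 ≤ N →
    IsZ ((Nat.lcmUpto N : ℚ) * ((k.factorial : ℚ) * m.factorial / (k + m + 1).factorial)) := by
  induction m with
  | zero =>
    intro k hk
    have := isZ_div (N := N) (n := k + 1) (by omega) (by omega)
    have e : ((k.factorial : ℚ) * (Nat.factorial 0) / (k + 0 + 1).factorial)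
        = 1 / ((k + 1 : ℕ) : ℚ) := by
      rw [Nat.add_zero, Nat.factorial_succ]
      have : (k.factorial : ℚ) ≠ 0 := by positivity
      push_cast
      field_simp
      simp
    rw [e]; exact this
  | succ m ih =>
    intro k hk
    have h1 := ih k (by omega)
    have h2 := ih (k + 1) (by omega)
    have e : ((k.factorial : ℚ) * (m + 1).factorial / (k + (m + 1) + 1).factorial)
        = ((k.factorial : ℚ) * m.factorial / (k + m + 1).factorial)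
          - (((k + 1).factorial : ℚ) * m.factorial / (k + 1 + m + 1).factorial) := by
      have e1 : k + (m + 1) + 1 = (k + m + 1) + 1 := by ring
      have e2 : k + 1 + m + 1 = (k + m + 1) + 1 := by ring
      rw [e1, e2, Nat.factorial_succ (k + m + 1), Nat.factorial_succ k, Nat.factorial_succ m]
      have h3 : ((k + m + 1).factorial : ℚ) ≠ 0 := by positivity
      have h4 : ((k : ℚ) + m + 1 + 1) ≠ 0 := by positivity
      push_cast
      field_simp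
      ring
    rw [e, mul_sub]
    exact h1.sub h2

theorem Q_eq (i : ℕ) : Q ℚ i = 4 ^ i * ((i.factorial : ℚ) * i.factorial / (i + i + 1).factorial) := by
  induction i with
  | zero => simp [Q]
  | succ i ih =>
    have : Q ℚ (i + 1) = Q ℚ i * ((2 * ((i : ℚ) + 1)) / (2 * ((i : ℚ) + 1) + 1)) := by
      unfold Q
      rw [Finset.prod_range_succ]
    rw [this, ih]
    have e1 : i + 1 + (i + 1) + 1 = (i + i + 1) + 1 + 1 := by ring
    rw [e1, Nat.factorial_succ (i + i + 1 + 1), Nat.factorial_succ (i + i + 1), Nat.factorial_succ i]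
    have h3 : ((i + i + 1).factorial : ℚ) ≠ 0 := by positivity
    have h4 : (2 * ((i : ℚ) + 1) + 1) ≠ 0 := by positivity
    have h5 : ((i : ℚ) + i + 1 + 1 + 1) ≠ 0 := by positivity
    have h6 : ((i : ℚ) + i + 1 + 1) ≠ 0 := by positivity
    push_cast
    field_simp
    ring

theorem isZ_Q {N i : ℕ} (h : 2 * i + 1 ≤ N) : IsZ ((Nat.lcmUpto N : ℚ) * Q ℚ i) := by
  have h1 := isZ_beta (N := N) i i (by omega)
  have h2 := (IsZ.nat (4 ^ i)).mul h1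
  rw [Q_eq]
  have e : (Nat.lcmUpto N : ℚ) * (4 ^ i * ((i.factorial : ℚ) * i.factorial / (i + i + 1).factorial))
    = ((4 ^ i : ℕ) : ℚ) * ((Nat.lcmUpto N : ℚ) *
        ((i.factorial : ℚ) * i.factorial / (i + i + 1).factorial)) := by
    push_cast; ring
  rw [e]; exact h2

theorem isZ_rr {K k : ℕ} (h : k ≤ K) : IsZ ((4 : ℚ) ^ K * rr ℚ k) := by
  obtain ⟨c, rfl⟩ := Nat.exists_eq_add_of_le h
  refine ⟨4 ^ c * (Nat.centralBinom k : ℤ), ?_⟩
  unfold rr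
  push_cast
  rw [pow_add]
  field_simp

theorem J_int (K : ℕ) :
    ∃ z : ℤ, (z : ℚ) = 2 * 4 ^ K * (Nat.lcmUpto (2 * K) : ℚ) ^ 2 * J ℚ K := by
  change IsZ _
  set L : ℚ := (Nat.lcmUpto (2 * K) : ℚ) with hL
  have hLZ : IsZ L := IsZ.nat _
  unfold J
  rw [mul_add, Finset.mul_sum, Finset.mul_sum]
  refine IsZ.add (IsZ.sum _ _ fun k hk => ?_) (IsZ.sum _ _ fun i hi => ?_)
  · have hk' := Finset.mem_range.1 hk
    have hr := isZ_rr (K := K) (k := k) (by omega)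
    have hH1 := isZ_H (N := 2 * K) (n := k) (by omega)
    have hH2 := isZ_H (N := 2 * K) (n := K - k) (by omega)
    have hH3 := isZ_H (N := 2 * K) (n := K + k) (by omega)
    have hO := isZ_Od (N := 2 * K) (n := k) (by omega)
    have hG1 := isZ_H2 (N := 2 * K) (n := k) (by omega)
    have hG2 := isZ_H2 (N := 2 * K) (n := K - k) (by omega)
    have hG3 := isZ_H2 (N := 2 * K) (n := K + k) (by omega)
    have hO2 := isZ_Od2 (N := 2 * K) (n := k) (by omega)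
    rw [← hL] at hH1 hH2 hH3 hO hG1 hG2 hG3 hO2
    have hp1 : IsZ (L * p1 ℚ K k) := by
      have := (hH1.sub hO).sub ((IsZ.nat 3).mul (hH2.sub hH3))
      have e : L * p1 ℚ K k = L * H ℚ k - L * Od ℚ k
          - ((3 : ℕ) : ℚ) * (L * H ℚ (K - k) - L * H ℚ (K + k)) := by
        unfold p1; push_cast; ring
      rw [e]; exact this
    have hp2 : IsZ (L ^ 2 * p2 ℚ K k) := by
      have := (hG1.sub hO2).add ((IsZ.nat 3).mul (hG2.add hG3))
      have e : L ^ 2 * p2 ℚ K k = L ^ 2 * H2 ℚ k - L ^ 2 * Od2 ℚ k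
          + ((3 : ℕ) : ℚ) * (L ^ 2 * H2 ℚ (K - k) + L ^ 2 * H2 ℚ (K + k)) := by
        unfold p2; push_cast; ring
      rw [e]; exact this
    have hA : IsZ (((-1 : ℤ) : ℚ) ^ (K + k) * (((2 * K).choose (K + k) : ℕ) : ℚ) ^ 3) :=
      ((IsZ.int (-1)).pow _).mul ((IsZ.nat _).pow 3)
    have hB : IsZ ((4 ^ K * rr ℚ k) * ((((K - k : ℕ) : ℚ)) ^ 2 * ((L * p1 ℚ K k) ^ 2 + L ^ 2 * p2 ℚ K k)
        + ((4 : ℕ) : ℚ) * ((K - k : ℕ) : ℚ) * L * (L * p1 ℚ K k) + ((2 : ℕ) : ℚ) * L ^ 2)) :=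
      hr.mul (((((IsZ.nat _).pow 2).mul ((hp1.pow 2).add hp2)).add
        ((((IsZ.nat 4).mul (IsZ.nat _)).mul hLZ).mul hp1)).add ((IsZ.nat 2).mul (hLZ.pow 2)))
    have := hA.mul hB
    have e : 2 * 4 ^ K * L ^ 2 *
        ((-1) ^ (K + k) * ((2 * K).choose (K + k) : ℚ) ^ 3 * TN ℚ K k)
        = (((-1 : ℤ) : ℚ) ^ (K + k) * (((2 * K).choose (K + k) : ℕ) : ℚ) ^ 3)
          * ((4 ^ K * rr ℚ k) * ((((K - k : ℕ) : ℚ)) ^ 2 * ((L * p1 ℚ K k) ^ 2 + L ^ 2 * p2 ℚ K k)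
        + ((4 : ℕ) : ℚ) * ((K - k : ℕ) : ℚ) * L * (L * p1 ℚ K k) + ((2 : ℕ) : ℚ) * L ^ 2)) := by
      unfold TN; push_cast; ring
    rw [e]; exact this
  · have hi' := Finset.mem_range.1 hi
    have hQ := isZ_Q (N := 2 * K) (i := i) (by omega)
    have hH1 := isZ_H (N := 2 * K) (n := i) (by omega)
    have hO := isZ_Od (N := 2 * K) (n := i + 1) (by omega)
    have hH2 := isZ_H (N := 2 * K) (n := K + i + 1) (by omega)
    have hH3 := isZ_H (N := 2 * K) (n := K - (i + 1)) (by omega)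
    rw [← hL] at hQ hH1 hO hH2 hH3
    have hA : IsZ (((-1 : ℤ) : ℚ) ^ (K - (i + 1)) * (((2 * K).choose (K + i + 1) : ℕ) : ℚ) ^ 3) :=
      ((IsZ.int (-1)).pow _).mul ((IsZ.nat _).pow 3)
    have hB : IsZ (((4 * 4 ^ K : ℕ) : ℚ) * (L * Q ℚ i) * ((((K + i + 1 : ℕ) : ℚ)) ^ 2 *
        (L * H ℚ i - L * Od ℚ (i + 1)
          - ((3 : ℕ) : ℚ) * (L * H ℚ (K + i + 1) - L * H ℚ (K - (i + 1))))
        + ((2 : ℕ) : ℚ) * ((K + i + 1 : ℕ) : ℚ) * L)) :=
      ((IsZ.nat _).mul hQ).mul ((((IsZ.nat _).pow 2).mul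
        ((hH1.sub hO).sub ((IsZ.nat 3).mul (hH2.sub hH3)))).add
        (((IsZ.nat 2).mul (IsZ.nat _)).mul hLZ))
    have := hA.mul hB
    have e : 2 * 4 ^ K * L ^ 2 *
        ((-1) ^ (K - (i + 1)) * ((2 * K).choose (K + i + 1) : ℚ) ^ 3 * TP ℚ K i)
        = (((-1 : ℤ) : ℚ) ^ (K - (i + 1)) * (((2 * K).choose (K + i + 1) : ℕ) : ℚ) ^ 3)
          * (((4 * 4 ^ K : ℕ) : ℚ) * (L * Q ℚ i) * ((((K + i + 1 : ℕ) : ℚ)) ^ 2 *
        (L * H ℚ i - L * Od ℚ (i + 1)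
          - ((3 : ℕ) : ℚ) * (L * H ℚ (K + i + 1) - L * H ℚ (K - (i + 1))))
        + ((2 : ℕ) : ℚ) * ((K + i + 1 : ℕ) : ℚ) * L)) := by
      unfold TP; push_cast; ring
    rw [e]; exact this

end Pool.Agent.H11.NW
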