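import Pool.Agent.H11.NW.Defs

/-!
# NW: jets at the integer nodes (helper81)

`f` satisfies `(2x+1) f(x+1) = 2x f(x)`; its Taylor coefficients of order `0, 1, 2` at the nodes
`-k` and `i + 1` are computed from those at `0`.
-/

set_option autoImplicit false

namespace Pool.Agent.H11.NW

open Finset Polynomial

theorem shift_taylor {F : Type} [Field F] {f : F[X]}
    (hf : (2 * X + 1) * f.comp (X + 1) = 2 * X * f) (a : F) :
    (C 2 * X + C (2 * a + 1)) * taylor (a + 1) f = (C 2 * X + C (2 * a)) * taylor a f := by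
  have h := congrArg (taylor a) hf
  have e0 : f.comp (X + 1) = taylor 1 f := by
    rw [taylor_apply, C_1]
  have two : (2 : F[X]) = C 2 := rfl
  rw [e0, taylor_mul, taylor_mul, taylor_taylor, two] at h
  have e1 : taylor a (C 2 * X + 1 : F[X]) = C 2 * X + C (2 * a + 1) := by
    have : (1 : F[X]) = C 1 := by simp
    rw [this, map_add, taylor_mul, taylor_C, taylor_X, taylor_C, mul_add, C_add, C_mul]
    ring
  have e2 : taylor a (C 2 * X : F[X]) = C 2 * X + C (2 * a) := by
    rw [taylor_mul, taylor_C, taylor_X, mul_add, C_mul]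
  rw [e1, e2] at h
  exact h

theorem coeff_lin0 {F : Type} [Field F] (c : F) (g : F[X]) :
    ((C 2 * X + C c) * g).coeff 0 = c * g.coeff 0 := by
  simp [mul_coeff_zero]

theorem coeff_lin1 {F : Type} [Field F] (c : F) (g : F[X]) :
    ((C 2 * X + C c) * g).coeff 1 = 2 * g.coeff 0 + c * g.coeff 1 := by
  rw [add_mul, coeff_add, mul_assoc, coeff_C_mul, coeff_X_mul, coeff_C_mul]

theorem coeff_lin2 {F : Type} [Field F] (c : F) (g : F[X]) :
    ((C 2 * X + C c) * g).coeff 2 = 2 * g.coeff 1 + c * g.coeff 2 := by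
  rw [add_mul, coeff_add, mul_assoc, coeff_C_mul, coeff_X_mul, coeff_C_mul]

theorem jrec0 {F : Type} [Field F] {f : F[X]}
    (hf : (2 * X + 1) * f.comp (X + 1) = 2 * X * f) (a : F) :
    (2 * a + 1) * (taylor (a + 1) f).coeff 0 = 2 * a * (taylor a f).coeff 0 := by
  have h := congrArg (fun g => g.coeff 0) (shift_taylor hf a)
  simpa only [coeff_lin0] using h

theorem jrec1 {F : Type} [Field F] {f : F[X]}
    (hf : (2 * X + 1) * f.comp (X + 1) = 2 * X * f) (a : F) :
    2 * (taylor (a + 1) f).coeff 0 + (2 * a + 1) * (taylor (a + 1) f).coeff 1 =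
      2 * (taylor a f).coeff 0 + 2 * a * (taylor a f).coeff 1 := by
  have h := congrArg (fun g => g.coeff 1) (shift_taylor hf a)
  simpa only [coeff_lin1] using h

theorem jrec2 {F : Type} [Field F] {f : F[X]}
    (hf : (2 * X + 1) * f.comp (X + 1) = 2 * X * f) (a : F) :
    2 * (taylor (a + 1) f).coeff 1 + (2 * a + 1) * (taylor (a + 1) f).coeff 2 =
      2 * (taylor a f).coeff 1 + 2 * a * (taylor a f).coeff 2 := by
  have h := congrArg (fun g => g.coeff 2) (shift_taylor hf a)
  simpa only [coeff_lin2] using h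

theorem rr_succ {F : Type} [Field F] (h2 : (2 : F) ≠ 0) (k : ℕ) (hk : (k : F) + 1 ≠ 0) :
    rr F (k + 1) = rr F k * ((2 * (k : F) + 1) / (2 * ((k : F) + 1))) := by
  have h := congrArg (Nat.cast (R := F)) (Nat.succ_mul_centralBinom_succ k)
  push_cast at h
  have h4 : (4 : F) ≠ 0 := by
    have : (4 : F) = 2 * 2 := by norm_num
    rw [this]
    exact mul_ne_zero h2 h2
  have h4k : (4 : F) ^ k ≠ 0 := pow_ne_zero _ h4
  rw [rr, rr, pow_succ, div_mul_div_comm, div_eq_div_iff (mul_ne_zero h4k h4)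
    (mul_ne_zero h4k (mul_ne_zero h2 hk))]
  linear_combination (2 * (4 : F) ^ k) * h

theorem jet_neg {F : Type} [Field F] (h2 : (2 : F) ≠ 0) (f : F[X])
    (hf : (2 * X + 1) * f.comp (X + 1) = 2 * X * f)
    (f0 : f.coeff 0 = 1) (f1 : f.coeff 1 = 0) (f2 : f.coeff 2 = 0) (k : ℕ)
    (hk : ∀ b : ℕ, b < k → ((b : F) + 1 ≠ 0 ∧ 2 * (b : F) + 1 ≠ 0)) :
    (taylor (-(k : F)) f).coeff 0 = rr F k ∧
    (taylor (-(k : F)) f).coeff 1 = rr F k * (H F k - Od F k) ∧
    (taylor (-(k : F)) f).coeff 2 =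
      rr F k * (((H F k - Od F k) ^ 2 + (H2 F k - Od2 F k)) / 2) := by
  induction k with
  | zero =>
    have e : -((0 : ℕ) : F) = 0 := by simp
    rw [e, taylor_zero]
    simp [rr, H, Od, H2, Od2, f0, f1, f2]
  | succ k ih =>
    obtain ⟨i0, i1, i2⟩ := ih (fun n hn => hk n (Nat.lt_succ_of_lt hn))
    have hk1 := (hk k (Nat.lt_succ_self k)).1
    have hk2 := (hk k (Nat.lt_succ_self k)).2
    have e : -((k + 1 : ℕ) : F) + 1 = -(k : F) := by push_cast; ring
    have r0 := jrec0 hf (-((k + 1 : ℕ) : F))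
    have r1 := jrec1 hf (-((k + 1 : ℕ) : F))
    have r2 := jrec2 hf (-((k + 1 : ℕ) : F))
    rw [e] at r0 r1 r2
    rw [i0] at r0
    rw [i0, i1] at r1
    rw [i1, i2] at r2
    push_cast at r0 r1 r2
    have s0 := rr_succ h2 k hk1
    have s1 : H F (k + 1) = H F k + 1 / ((k : F) + 1) := by rw [H, H, sum_range_succ]
    have s2 : Od F (k + 1) = Od F k + 2 / (2 * (k : F) + 1) := by rw [Od, Od, sum_range_succ]
    have s3 : H2 F (k + 1) = H2 F k + 1 / ((k : F) + 1) ^ 2 := by rw [H2, H2, sum_range_succ]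
    have s4 : Od2 F (k + 1) = Od2 F k + 4 / (2 * (k : F) + 1) ^ 2 := by
      rw [Od2, Od2, sum_range_succ]
    have q0 : (taylor (-((k + 1 : ℕ) : F)) f).coeff 0 = rr F (k + 1) := by
      rw [s0]
      push_cast
      field_simp
      linear_combination r0
    have q1 : (taylor (-((k + 1 : ℕ) : F)) f).coeff 1 =
        rr F (k + 1) * (H F (k + 1) - Od F (k + 1)) := by
      rw [s0] at q0
      rw [s0, s1, s2]
      push_cast at q0 ⊢
      rw [q0] at r1
      field_simp at r1 ⊢
      linear_combination r1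
    have q2 : (taylor (-((k + 1 : ℕ) : F)) f).coeff 2 =
        rr F (k + 1) * (((H F (k + 1) - Od F (k + 1)) ^ 2 +
          (H2 F (k + 1) - Od2 F (k + 1))) / 2) := by
      rw [s0, s1, s2] at q1
      rw [s0, s1, s2, s3, s4]
      push_cast at q1 ⊢
      have hk3 : 2 * ((k : F) + 1) ≠ 0 := mul_ne_zero h2 hk1
      have q3 : (taylor (-((k : F) + 1)) f).coeff 2 =
          (2 * (taylor (-((k : F) + 1)) f).coeff 1 - 2 * (rr F k * (H F k - Od F k)) +
            (2 * (k : F) + 1) * (rr F k * (((H F k - Od F k) ^ 2 + (H2 F k - Od2 F k)) / 2))) /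
            (2 * ((k : F) + 1)) := by
        rw [eq_div_iff hk3]
        linear_combination r2
      rw [q3, q1]
      field_simp
      ring
    exact ⟨q0, q1, q2⟩

theorem jet_pos {F : Type} [Field F] (h2 : (2 : F) ≠ 0) (f : F[X])
    (hf : (2 * X + 1) * f.comp (X + 1) = 2 * X * f)
    (f0 : f.coeff 0 = 1) (f1 : f.coeff 1 = 0) (i : ℕ)
    (hi : ∀ b : ℕ, b < i + 1 → ((b : F) + 1 ≠ 0 ∧ 2 * (b : F) + 1 ≠ 0)) :
    (taylor ((i : F) + 1) f).coeff 0 = 0 ∧
    (taylor ((i : F) + 1) f).coeff 1 = 2 * Q F i ∧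
    (taylor ((i : F) + 1) f).coeff 2 = 2 * Q F i * (H F i - Od F (i + 1)) := by
  induction i with
  | zero =>
    have r0 := jrec0 hf 0
    have r1 := jrec1 hf 0
    have r2 := jrec2 hf 0
    rw [taylor_zero] at r0 r1 r2
    rw [f0] at r0 r1
    rw [f1] at r1 r2
    simp only [mul_zero, zero_add, one_mul, zero_mul, mul_one, add_zero] at r0 r1 r2
    rw [r0] at r1
    simp only [mul_zero, zero_add] at r1
    rw [r1] at r2
    have r2' : ((taylor (1 : F)) f).coeff 2 = -4 := by linear_combination r2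
    simp only [Nat.cast_zero, zero_add, Q, H, Od, prod_range_zero, sum_range_zero, sum_range_one,
      mul_one, mul_zero, div_one]
    refine ⟨r0, r1, ?_⟩
    rw [r2']
    norm_num
  | succ i ih =>
    obtain ⟨i0, i1, i2⟩ := ih (fun n hn => hi n (Nat.lt_succ_of_lt hn))
    have hk1 := (hi i (by omega)).1
    have hk2 : 2 * ((i : F) + 1) + 1 ≠ 0 := by
      have := (hi (i + 1) (by omega)).2
      push_cast at this
      exact this
    have r0 := jrec0 hf ((i : F) + 1)
    have r1 := jrec1 hf ((i : F) + 1)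
    have r2 := jrec2 hf ((i : F) + 1)
    rw [i0] at r0
    rw [i0, i1] at r1
    rw [i1, i2] at r2
    have s0 : Q F (i + 1) = Q F i * ((2 * ((i : F) + 1)) / (2 * ((i : F) + 1) + 1)) := by
      rw [Q, Q, prod_range_succ]
    have s1 : H F (i + 1) = H F i + 1 / ((i : F) + 1) := by rw [H, H, sum_range_succ]
    have s2 : Od F (i + 1 + 1) = Od F (i + 1) + 2 / (2 * ((i : F) + 1) + 1) := by
      rw [Od, Od, sum_range_succ]; push_cast; rfl
    have q0 : (taylor ((i : F) + 1 + 1) f).coeff 0 = 0 := by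
      rw [mul_zero] at r0
      exact (mul_eq_zero.mp r0).resolve_left hk2
    have q1 : (taylor ((i : F) + 1 + 1) f).coeff 1 = 2 * Q F (i + 1) := by
      have : (taylor ((i : F) + 1 + 1) f).coeff 1 =
          (2 * ((i : F) + 1)) * (2 * Q F i) / (2 * ((i : F) + 1) + 1) := by
        rw [eq_div_iff hk2]
        rw [q0] at r1
        linear_combination r1
      rw [this, s0]
      field_simp
    have q2 : (taylor ((i : F) + 1 + 1) f).coeff 2 =
        2 * Q F (i + 1) * (H F (i + 1) - Od F (i + 1 + 1)) := by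
      have : (taylor ((i : F) + 1 + 1) f).coeff 2 =
          (2 * (2 * Q F i) + 2 * ((i : F) + 1) * (2 * Q F i * (H F i - Od F (i + 1))) -
            2 * (2 * Q F (i + 1))) / (2 * ((i : F) + 1) + 1) := by
        rw [eq_div_iff hk2]
        rw [q1] at r2
        linear_combination r2
      rw [this, s1, s2, s0]
      field_simp
      ring
    push_cast
    exact ⟨q0, q1, q2⟩

/-! Jets of `(X + c)^2 f`. -/

theorem taylor_sq_mul {F : Type} [Field F] (c a : F) (f : F[X]) :
    taylor a ((X + C c) ^ 2 * f) = (X + C (a + c)) ^ 2 * taylor a f := by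
  rw [taylor_mul, sq, taylor_mul, map_add, taylor_X, taylor_C, sq, C_add]
  ring

theorem coeff_sq0 {F : Type} [Field F] (j : F) (g : F[X]) :
    ((X + C j) ^ 2 * g).coeff 0 = j ^ 2 * g.coeff 0 := by
  rw [mul_coeff_zero, coeff_zero_eq_eval_zero ((X + C j) ^ 2)]
  simp

theorem coeff_sq1 {F : Type} [Field F] (j : F) (g : F[X]) :
    ((X + C j) ^ 2 * g).coeff 1 = j ^ 2 * g.coeff 1 + 2 * j * g.coeff 0 := by
  have e : (X + C j) ^ 2 * g = X * (X * g) + C (2 * j) * (X * g) + C (j ^ 2) * g := by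
    rw [C_mul, C_pow]
    have : (C 2 : F[X]) = 2 := rfl
    rw [this]
    ring
  rw [e, coeff_add, coeff_add, coeff_C_mul, coeff_C_mul, coeff_X_mul, coeff_X_mul]
  simp [mul_coeff_zero]
  ring

theorem coeff_sq2 {F : Type} [Field F] (j : F) (g : F[X]) :
    ((X + C j) ^ 2 * g).coeff 2 = j ^ 2 * g.coeff 2 + 2 * j * g.coeff 1 + g.coeff 0 := by
  have e : (X + C j) ^ 2 * g = X * (X * g) + C (2 * j) * (X * g) + C (j ^ 2) * g := by
    rw [C_mul, C_pow]
    have : (C 2 : F[X]) = 2 := rfl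
    rw [this]
    ring
  rw [e, coeff_add, coeff_add, coeff_C_mul, coeff_C_mul, coeff_X_mul, coeff_X_mul, coeff_X_mul]
  ring

end Pool.Agent.H11.NW
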