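import Pool.Agent.H11.NW.Defs

/-! NW Red: reduction of `p`-integral rational numbers mod `p` -/

set_option autoImplicit false

namespace Pool.Agent.H11.NW

open Finset

/-- `q` is a `p`-integral rational number with residue `z` -/
def Red (p : ℕ) (q : ℚ) (z : ZMod p) : Prop :=
  ∃ a b : ℤ, (b : ZMod p) ≠ 0 ∧ (b : ℚ) ≠ 0 ∧ q = a / b ∧ z * (b : ZMod p) = (a : ZMod p)

section
variable {p : ℕ} [hpf : Fact p.Prime]

theorem Red.int (a : ℤ) : Red p (a : ℚ) (a : ZMod p) :=
  ⟨a, 1, by simp, by simp, by simp, by simp⟩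

theorem Red.nat (a : ℕ) : Red p (a : ℚ) (a : ZMod p) := by
  have := Red.int (p := p) (a : ℤ)
  simpa using this

theorem Red.zero : Red p (0 : ℚ) (0 : ZMod p) := by simpa using Red.nat (p := p) 0

theorem Red.one : Red p (1 : ℚ) (1 : ZMod p) := by simpa using Red.nat (p := p) 1

theorem Red.ofNat (n : ℕ) [n.AtLeastTwo] :
    Red p (OfNat.ofNat n : ℚ) (OfNat.ofNat n : ZMod p) := by
  have := Red.nat (p := p) (OfNat.ofNat n)
  simpa using this

theorem Red.add {q r : ℚ} {z w : ZMod p} (h : Red p q z) (k : Red p r w) :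
    Red p (q + r) (z + w) := by
  obtain ⟨a, b, hb, hb', rfl, e⟩ := h
  obtain ⟨c, d, hd, hd', rfl, f⟩ := k
  refine ⟨a * d + c * b, b * d, by push_cast; exact mul_ne_zero hb hd,
    by push_cast; exact mul_ne_zero hb' hd', by push_cast; field_simp, ?_⟩
  push_cast
  linear_combination (d : ZMod p) * e + (b : ZMod p) * f

theorem Red.neg {q : ℚ} {z : ZMod p} (h : Red p q z) : Red p (-q) (-z) := by
  obtain ⟨a, b, hb, hb', rfl, e⟩ := h
  refine ⟨-a, b, hb, hb', by push_cast; ring, ?_⟩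
  push_cast
  linear_combination - e

theorem Red.sub {q r : ℚ} {z w : ZMod p} (h : Red p q z) (k : Red p r w) :
    Red p (q - r) (z - w) := by
  rw [sub_eq_add_neg, sub_eq_add_neg]; exact h.add k.neg

theorem Red.mul {q r : ℚ} {z w : ZMod p} (h : Red p q z) (k : Red p r w) :
    Red p (q * r) (z * w) := by
  obtain ⟨a, b, hb, hb', rfl, e⟩ := h
  obtain ⟨c, d, hd, hd', rfl, f⟩ := k
  refine ⟨a * c, b * d, by push_cast; exact mul_ne_zero hb hd,
    by push_cast; exact mul_ne_zero hb' hd', by push_cast; field_simp, ?_⟩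
  push_cast
  linear_combination (w * (d : ZMod p)) * e + (a : ZMod p) * f

theorem Red.inv {q : ℚ} {z : ZMod p} (h : Red p q z) (hz : z ≠ 0) : Red p q⁻¹ z⁻¹ := by
  obtain ⟨a, b, hb, hb', rfl, e⟩ := h
  have ha : (a : ZMod p) ≠ 0 := by rw [← e]; exact mul_ne_zero hz hb
  have ha' : (a : ℚ) ≠ 0 := by
    intro h0
    apply ha
    have : a = 0 := by exact_mod_cast h0
    rw [this]; simp
  refine ⟨b, a, ha, ha', by rw [inv_div], ?_⟩
  rw [← e]; field_simp

theorem Red.div {q r : ℚ} {z w : ZMod p} (h : Red p q z) (k : Red p r w) (hw : w ≠ 0) :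
    Red p (q / r) (z / w) := by
  rw [div_eq_mul_inv, div_eq_mul_inv]; exact h.mul (k.inv hw)

theorem Red.pow {q : ℚ} {z : ZMod p} (h : Red p q z) (n : ℕ) : Red p (q ^ n) (z ^ n) := by
  induction n with
  | zero => simpa using Red.one
  | succ n ih => rw [pow_succ, pow_succ]; exact ih.mul h

theorem Red.sum {ι : Type*} (s : Finset ι) {f : ι → ℚ} {g : ι → ZMod p}
    (h : ∀ i ∈ s, Red p (f i) (g i)) : Red p (∑ i ∈ s, f i) (∑ i ∈ s, g i) := by
  classical
  induction s using Finset.induction_on with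
  | empty => simpa using Red.zero
  | insert a s ha ih =>
    rw [Finset.sum_insert ha, Finset.sum_insert ha]
    exact (h a (Finset.mem_insert_self a s)).add
      (ih fun i hi => h i (Finset.mem_insert_of_mem hi))

theorem Red.prod {ι : Type*} (s : Finset ι) {f : ι → ℚ} {g : ι → ZMod p}
    (h : ∀ i ∈ s, Red p (f i) (g i)) : Red p (∏ i ∈ s, f i) (∏ i ∈ s, g i) := by
  classical
  induction s using Finset.induction_on with
  | empty => simpa using Red.one
  | insert a s ha ih =>
    rw [Finset.prod_insert ha, Finset.prod_insert ha]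
    exact (h a (Finset.mem_insert_self a s)).mul
      (ih fun i hi => h i (Finset.mem_insert_of_mem hi))

theorem nat_ne {n : ℕ} (h0 : 0 < n) (h1 : n < p) : (n : ZMod p) ≠ 0 := by
  intro h
  rw [ZMod.natCast_eq_zero_iff] at h
  exact absurd (Nat.le_of_dvd h0 h) (by omega)

theorem red_H (n : ℕ) (hn : n < p) : Red p (H ℚ n) (H (ZMod p) n) := by
  unfold H
  refine Red.sum _ fun j hj => ?_
  rw [mem_range] at hj
  refine Red.one.div ((Red.nat j).add Red.one) ?_
  have := nat_ne (p := p) (n := j + 1) (by omega) (by omega)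
  simpa using this

theorem red_H2 (n : ℕ) (hn : n < p) : Red p (H2 ℚ n) (H2 (ZMod p) n) := by
  unfold H2
  refine Red.sum _ fun j hj => ?_
  rw [mem_range] at hj
  refine Red.one.div (((Red.nat j).add Red.one).pow 2) ?_
  have := nat_ne (p := p) (n := j + 1) (by omega) (by omega)
  exact pow_ne_zero 2 (by simpa using this)

theorem red_Od (n : ℕ) (hn : 2 * n ≤ p) : Red p (Od ℚ n) (Od (ZMod p) n) := by
  unfold Od
  refine Red.sum _ fun j hj => ?_
  rw [mem_range] at hj
  refine (Red.ofNat 2).div (((Red.ofNat 2).mul (Red.nat j)).add Red.one) ?_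
  have := nat_ne (p := p) (n := 2 * j + 1) (by omega) (by omega)
  simpa using this

theorem red_Od2 (n : ℕ) (hn : 2 * n ≤ p) : Red p (Od2 ℚ n) (Od2 (ZMod p) n) := by
  unfold Od2
  refine Red.sum _ fun j hj => ?_
  rw [mem_range] at hj
  refine (Red.ofNat 4).div ((((Red.ofNat 2).mul (Red.nat j)).add Red.one).pow 2) ?_
  have := nat_ne (p := p) (n := 2 * j + 1) (by omega) (by omega)
  exact pow_ne_zero 2 (by simpa using this)

theorem red_Q (n : ℕ) (hn : 2 * n + 1 ≤ p) (hodd : p ≠ 2 * n + 1) :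
    Red p (Q ℚ n) (Q (ZMod p) n) := by
  unfold Q
  refine Red.prod _ fun j hj => ?_
  rw [mem_range] at hj
  refine ((Red.ofNat 2).mul ((Red.nat j).add Red.one)).div
    (((Red.ofNat 2).mul ((Red.nat j).add Red.one)).add Red.one) ?_
  have := nat_ne (p := p) (n := 2 * (j + 1) + 1) (by omega) (by omega)
  simpa using this

theorem two_ne (hp : 2 < p) : (2 : ZMod p) ≠ 0 := by
  have := nat_ne (p := p) (n := 2) (by omega) hp
  simpa using this

theorem red_rr (n : ℕ) (hp : 2 < p) : Red p (rr ℚ n) (rr (ZMod p) n) := by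
  unfold rr
  refine (Red.nat _).div ((Red.ofNat 4).pow n) ?_
  have h4 : (4 : ZMod p) = 2 * 2 := by norm_num
  rw [h4]
  exact pow_ne_zero _ (mul_ne_zero (two_ne hp) (two_ne hp))

theorem red_p1 (K k : ℕ) (h1 : 2 * K < p) (hk : k ≤ K) :
    Red p (p1 ℚ K k) (p1 (ZMod p) K k) := by
  unfold p1
  exact ((red_H k (by omega)).sub (red_Od k (by omega))).sub
    ((Red.ofNat 3).mul ((red_H (K - k) (by omega)).sub (red_H (K + k) (by omega))))

theorem red_p2 (K k : ℕ) (h1 : 2 * K < p) (hk : k ≤ K) :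
    Red p (p2 ℚ K k) (p2 (ZMod p) K k) := by
  unfold p2
  exact ((red_H2 k (by omega)).sub (red_Od2 k (by omega))).add
    ((Red.ofNat 3).mul ((red_H2 (K - k) (by omega)).add (red_H2 (K + k) (by omega))))

theorem red_TN (K k : ℕ) (hp : 2 < p) (h1 : 2 * K < p) (hk : k ≤ K) :
    Red p (TN ℚ K k) (TN (ZMod p) K k) := by
  unfold TN
  have a1 := red_p1 (p := p) K k h1 hk
  have a2 := red_p2 (p := p) K k h1 hk
  exact (red_rr k hp).mul ((((((Red.nat _).pow 2).mul ((a1.pow 2).add a2)).div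
    (Red.ofNat 2) (two_ne hp)).add (((Red.ofNat 2).mul (Red.nat _)).mul a1)).add Red.one)

theorem red_TP (K i : ℕ) (h1 : 2 * K < p) (hi : i < K) :
    Red p (TP ℚ K i) (TP (ZMod p) K i) := by
  unfold TP
  have a1 := red_Q (p := p) i (by omega) (by omega)
  have a2 := red_H (p := p) i (by omega)
  have a3 := red_Od (p := p) (i + 1) (by omega)
  have a4 := red_H (p := p) (K + i + 1) (by omega)
  have a5 := red_H (p := p) (K - (i + 1)) (by omega)
  exact (((Red.ofNat 2).mul a1).mul ((((Red.nat _).pow 2).mul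
    ((a2.sub a3).sub ((Red.ofNat 3).mul (a4.sub a5)))).add
      ((Red.ofNat 2).mul (Red.nat _))))

end

theorem J_red (p : ℕ) [Fact p.Prime] (K : ℕ) (h1 : 2 * K < p) :
    Red p (J ℚ K) (J (ZMod p) K) := by
  rcases Nat.eq_zero_or_pos K with h0 | h0
  · subst h0
    have hp : 2 ≤ p := (Fact.out : p.Prime).two_le
    have e1 : J ℚ 0 = 1 := by simp [J, TN, rr, p1, p2, H, Od, H2, Od2]
    have e2 : J (ZMod p) 0 = 1 := by simp [J, TN, rr, p1, p2, H, Od, H2, Od2]
    rw [e1, e2]; exact Red.one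
  · have hp : 2 < p := by omega
    unfold J
    refine (Red.sum _ fun k hk => ?_).add (Red.sum _ fun i hi => ?_)
    · rw [mem_range] at hk
      exact ((Red.one.neg.pow _).mul ((Red.nat _).pow 3)).mul
        (red_TN K k hp h1 (by omega))
    · rw [mem_range] at hi
      exact ((Red.one.neg.pow _).mul ((Red.nat _).pow 3)).mul
        (red_TP K i h1 (by omega))

theorem red_int (p : ℕ) [Fact p.Prime] (q : ℚ) (hq : Red p q 0) (z c : ℤ)
    (h : (z : ℚ) = c * q) : (p : ℤ) ∣ z := by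
  obtain ⟨a, b, hb, hb', rfl, e⟩ := hq
  rw [zero_mul] at e
  have h2 : z * b = c * a := by
    have : (z : ℚ) * b = c * a := by rw [h]; field_simp
    exact_mod_cast this
  have h3 : (p : ℤ) ∣ a := (ZMod.intCast_zmod_eq_zero_iff_dvd a p).1 e.symm
  have h4 : (p : ℤ) ∣ z * b := by rw [h2]; exact Dvd.dvd.mul_left h3 c
  have hpr : Prime (p : ℤ) := Nat.prime_iff_prime_int.1 Fact.out
  rcases hpr.dvd_or_dvd h4 with h5 | h5
  · exact h5
  · exact absurd ((ZMod.intCast_zmod_eq_zero_iff_dvd b p).2 h5) hb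

end Pool.Agent.H11.NW
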