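import Pool.Agent.H11.NW.Defs

/-!
# NW: the size of `J` (helper13)
-/

set_option autoImplicit false

namespace Pool.Agent.H11.NW

open Finset

private theorem H_abs (n : ℕ) : |H ℚ n| ≤ n := by
  unfold H
  refine (abs_sum_le_sum_abs _ _).trans ?_
  refine (sum_le_card_nsmul _ _ 1 fun j _ => ?_).trans (by simp)
  rw [abs_of_nonneg (by positivity), div_le_one (by positivity)]
  have : (0 : ℚ) ≤ j := by positivity
  linarith

private theorem H2_abs (n : ℕ) : |H2 ℚ n| ≤ n := by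
  unfold H2
  refine (abs_sum_le_sum_abs _ _).trans ?_
  refine (sum_le_card_nsmul _ _ 1 fun j _ => ?_).trans (by simp)
  rw [abs_of_nonneg (by positivity), div_le_one (by positivity)]
  have : (0 : ℚ) ≤ j := by positivity
  nlinarith

private theorem Od_abs (n : ℕ) : |Od ℚ n| ≤ 2 * n := by
  unfold Od
  refine (abs_sum_le_sum_abs _ _).trans ?_
  refine (sum_le_card_nsmul _ _ 2 fun j _ => ?_).trans (by simp [mul_comm])
  rw [abs_of_nonneg (by positivity), div_le_iff₀ (by positivity)]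
  have : (0 : ℚ) ≤ j := by positivity
  linarith

private theorem Od2_abs (n : ℕ) : |Od2 ℚ n| ≤ 4 * n := by
  unfold Od2
  refine (abs_sum_le_sum_abs _ _).trans ?_
  refine (sum_le_card_nsmul _ _ 4 fun j _ => ?_).trans (by simp [mul_comm])
  rw [abs_of_nonneg (by positivity), div_le_iff₀ (by positivity)]
  have : (0 : ℚ) ≤ j := by positivity
  nlinarith

private theorem Q_abs (n : ℕ) : |Q ℚ n| ≤ 1 := by
  unfold Q
  rw [Finset.abs_prod]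
  refine prod_le_one (fun j _ => abs_nonneg _) fun j _ => ?_
  rw [abs_of_nonneg (by positivity), div_le_one (by positivity)]
  linarith

private theorem rr_abs (n : ℕ) : |rr ℚ n| ≤ 1 := by
  unfold rr
  rw [abs_of_nonneg (by positivity), div_le_one (by positivity)]
  have h : Nat.centralBinom n ≤ 4 ^ n := by
    rw [Nat.centralBinom_eq_two_mul_choose]
    calc (2 * n).choose n ≤ 2 ^ (2 * n) := Nat.choose_le_two_pow _ _
      _ = 4 ^ n := by rw [pow_mul]; norm_num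
  exact_mod_cast h

private theorem p1_abs (K k : ℕ) (hk : k ≤ K) : |p1 ℚ K k| ≤ 9 * K := by
  unfold p1
  have h1 := abs_le.1 (H_abs k)
  have h2 := abs_le.1 (Od_abs k)
  have h3 := abs_le.1 (H_abs (K - k))
  have h4 := abs_le.1 (H_abs (K + k))
  have h5 : (k : ℚ) ≤ K := by exact_mod_cast hk
  rw [Nat.cast_sub hk] at h3
  push_cast at h4
  rw [abs_le]
  constructor <;> linarith [h1.1, h1.2, h2.1, h2.2, h3.1, h3.2, h4.1, h4.2]

private theorem p2_abs (K k : ℕ) (hk : k ≤ K) : |p2 ℚ K k| ≤ 11 * K := by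
  unfold p2
  have h1 := abs_le.1 (H2_abs k)
  have h2 := abs_le.1 (Od2_abs k)
  have h3 := abs_le.1 (H2_abs (K - k))
  have h4 := abs_le.1 (H2_abs (K + k))
  have h5 : (k : ℚ) ≤ K := by exact_mod_cast hk
  rw [Nat.cast_sub hk] at h3
  push_cast at h4
  rw [abs_le]
  constructor <;> linarith [h1.1, h1.2, h2.1, h2.2, h3.1, h3.2, h4.1, h4.2]

private theorem TN_abs (K k : ℕ) (hK : 1 ≤ K) (hk : k ≤ K) : |TN ℚ K k| ≤ 65 * (K : ℚ) ^ 4 := by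
  unfold TN
  rw [abs_mul]
  have hK' : (1 : ℚ) ≤ K := by exact_mod_cast hK
  have hj : |(((K - k : ℕ) : ℚ))| ≤ K := by
    rw [abs_of_nonneg (by positivity)]
    exact_mod_cast Nat.sub_le K k
  have e1 : |((K - k : ℕ) : ℚ) ^ 2 * ((p1 ℚ K k) ^ 2 + p2 ℚ K k) / 2| ≤
      (K : ℚ) ^ 2 * ((9 * K) ^ 2 + 11 * K) / 2 := by
    rw [abs_div, abs_mul, abs_pow, abs_two]
    have a1 : |(p1 ℚ K k) ^ 2 + p2 ℚ K k| ≤ (9 * K) ^ 2 + 11 * K := by
      refine (abs_add_le _ _).trans (add_le_add ?_ (p2_abs K k hk))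
      rw [abs_pow]
      exact pow_le_pow_left₀ (abs_nonneg _) (p1_abs K k hk) 2
    have a2 := mul_le_mul (pow_le_pow_left₀ (abs_nonneg _) hj 2) a1 (abs_nonneg _) (by positivity)
    linarith
  have e2 : |2 * ((K - k : ℕ) : ℚ) * p1 ℚ K k| ≤ 2 * K * (9 * K) := by
    rw [abs_mul, abs_mul, abs_two]
    exact mul_le_mul (mul_le_mul_of_nonneg_left hj (by norm_num)) (p1_abs K k hk) (abs_nonneg _)
      (by positivity)
  have e3 : |((K - k : ℕ) : ℚ) ^ 2 * ((p1 ℚ K k) ^ 2 + p2 ℚ K k) / 2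
      + 2 * ((K - k : ℕ) : ℚ) * p1 ℚ K k + 1| ≤ 65 * (K : ℚ) ^ 4 := by
    refine (abs_add_le _ _).trans ?_
    have := abs_add_le (((K - k : ℕ) : ℚ) ^ 2 * ((p1 ℚ K k) ^ 2 + p2 ℚ K k) / 2)
      (2 * ((K - k : ℕ) : ℚ) * p1 ℚ K k)
    rw [abs_one]
    have q1 : (1 : ℚ) ≤ (K : ℚ) ^ 4 := one_le_pow₀ hK'
    have q2 : (K : ℚ) ^ 2 ≤ (K : ℚ) ^ 4 := pow_le_pow_right₀ hK' (by norm_num)
    have q3 : (K : ℚ) ^ 3 ≤ (K : ℚ) ^ 4 := pow_le_pow_right₀ hK' (by norm_num)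
    nlinarith
  calc |rr ℚ k| * _ ≤ 1 * (65 * (K : ℚ) ^ 4) :=
        mul_le_mul (rr_abs k) e3 (abs_nonneg _) (by norm_num)
    _ = 65 * (K : ℚ) ^ 4 := one_mul _

private theorem TP_abs (K i : ℕ) (hi : i < K) : |TP ℚ K i| ≤ 80 * (K : ℚ) ^ 4 := by
  unfold TP
  rw [abs_mul]
  have hK : 1 ≤ K := by omega
  have hK' : (1 : ℚ) ≤ K := by exact_mod_cast hK
  have hj : |(((K + i + 1 : ℕ) : ℚ))| ≤ 2 * K := by
    rw [abs_of_nonneg (by positivity)]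
    have : K + i + 1 ≤ 2 * K := by omega
    exact_mod_cast this
  have e0 : |H ℚ i - Od ℚ (i + 1) - 3 * (H ℚ (K + i + 1) - H ℚ (K - (i + 1)))| ≤ 9 * K := by
    have h1 := abs_le.1 (H_abs i)
    have h2 := abs_le.1 (Od_abs (i + 1))
    have h3 := abs_le.1 (H_abs (K + i + 1))
    have h4 := abs_le.1 (H_abs (K - (i + 1)))
    have h5 : (i : ℚ) + 1 ≤ K := by exact_mod_cast hi
    rw [Nat.cast_sub (by omega : i + 1 ≤ K)] at h4
    push_cast at h2 h3 h4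
    rw [abs_le]
    constructor <;> linarith [h1.1, h1.2, h2.1, h2.2, h3.1, h3.2, h4.1, h4.2]
  have e1 : |((K + i + 1 : ℕ) : ℚ) ^ 2 *
      (H ℚ i - Od ℚ (i + 1) - 3 * (H ℚ (K + i + 1) - H ℚ (K - (i + 1))))| ≤
      (2 * (K : ℚ)) ^ 2 * (9 * (K : ℚ)) := by
    rw [abs_mul, abs_pow]
    exact mul_le_mul (pow_le_pow_left₀ (abs_nonneg _) hj 2) e0 (abs_nonneg _) (by positivity)
  have e2 : |2 * ((K + i + 1 : ℕ) : ℚ)| ≤ 2 * (2 * K) := by
    rw [abs_mul, abs_two]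
    exact mul_le_mul_of_nonneg_left hj (by norm_num)
  have e3 : |((K + i + 1 : ℕ) : ℚ) ^ 2 *
      (H ℚ i - Od ℚ (i + 1) - 3 * (H ℚ (K + i + 1) - H ℚ (K - (i + 1))))
      + 2 * ((K + i + 1 : ℕ) : ℚ)| ≤ 40 * (K : ℚ) ^ 4 := by
    refine (abs_add_le _ _).trans ?_
    have q1 : (K : ℚ) ≤ (K : ℚ) ^ 4 := by
      calc (K : ℚ) = (K : ℚ) ^ 1 := (pow_one _).symm
        _ ≤ (K : ℚ) ^ 4 := pow_le_pow_right₀ hK' (by norm_num)
    have q3 : (K : ℚ) ^ 3 ≤ (K : ℚ) ^ 4 := pow_le_pow_right₀ hK' (by norm_num)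
    nlinarith
  have e4 : |2 * Q ℚ i| ≤ 2 := by
    rw [abs_mul, abs_two]
    linarith [Q_abs i]
  calc |2 * Q ℚ i| * _ ≤ 2 * (40 * (K : ℚ) ^ 4) :=
        mul_le_mul e4 e3 (abs_nonneg _) (by norm_num)
    _ = 80 * (K : ℚ) ^ 4 := by ring

private theorem choose_abs (K j : ℕ) : |((2 * K).choose j : ℚ)| ≤ 2 ^ (2 * K) := by
  rw [abs_of_nonneg (by positivity)]
  exact_mod_cast Nat.choose_le_two_pow _ _

theorem J_size (K : ℕ) (hK : 1 ≤ K) : |J ℚ K| ≤ 10 ^ 6 * (K : ℚ) ^ 6 * 2 ^ (6 * K) := by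
  have hK' : (1 : ℚ) ≤ K := by exact_mod_cast hK
  have hp : (2 : ℚ) ^ (6 * K) = (2 ^ (2 * K)) ^ 3 := by rw [← pow_mul]; ring_nf
  unfold J
  refine (abs_add_le _ _).trans ?_
  have s1 : |∑ k ∈ range (K + 1), (-1) ^ (K + k) * ((2 * K).choose (K + k) : ℚ) ^ 3 * TN ℚ K k| ≤
      ((K : ℚ) + 1) * (2 ^ (6 * K) * (65 * (K : ℚ) ^ 4)) := by
    refine (abs_sum_le_sum_abs _ _).trans ?_
    refine (sum_le_card_nsmul _ _ (2 ^ (6 * K) * (65 * (K : ℚ) ^ 4)) fun k hk => ?_).trans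
      (by simp)
    rw [abs_mul, abs_mul, abs_pow, abs_neg, abs_one, one_pow, one_mul, abs_pow, hp]
    have hk' : k ≤ K := by have := mem_range.1 hk; omega
    exact mul_le_mul (pow_le_pow_left₀ (abs_nonneg _) (choose_abs K _) 3) (TN_abs K k hK hk')
      (abs_nonneg _) (by positivity)
  have s2 : |∑ i ∈ range K, (-1) ^ (K - (i + 1)) * ((2 * K).choose (K + i + 1) : ℚ) ^ 3 *
      TP ℚ K i| ≤ (K : ℚ) * (2 ^ (6 * K) * (80 * (K : ℚ) ^ 4)) := by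
    refine (abs_sum_le_sum_abs _ _).trans ?_
    refine (sum_le_card_nsmul _ _ (2 ^ (6 * K) * (80 * (K : ℚ) ^ 4)) fun k hk => ?_).trans
      (by simp)
    rw [abs_mul, abs_mul, abs_pow, abs_neg, abs_one, one_pow, one_mul, abs_pow, hp]
    exact mul_le_mul (pow_le_pow_left₀ (abs_nonneg _) (choose_abs K _) 3)
      (TP_abs K k (mem_range.1 hk)) (abs_nonneg _) (by positivity)
  have hq : (0 : ℚ) < 2 ^ (6 * K) := by positivity
  have q4 : (0 : ℚ) < (K : ℚ) ^ 4 := by positivity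
  have q5 : (K : ℚ) ^ 4 ≤ (K : ℚ) ^ 6 := pow_le_pow_right₀ hK' (by norm_num)
  have q6 : (K : ℚ) ^ 5 ≤ (K : ℚ) ^ 6 := pow_le_pow_right₀ hK' (by norm_num)
  have q7 : (K : ℚ) ^ 5 = K * (K : ℚ) ^ 4 := by ring
  refine (add_le_add s1 s2).trans ?_
  have : ((K : ℚ) + 1) * (65 * (K : ℚ) ^ 4) + K * (80 * (K : ℚ) ^ 4) ≤ 10 ^ 6 * (K : ℚ) ^ 6 := by
    nlinarith
  calc ((K : ℚ) + 1) * (2 ^ (6 * K) * (65 * (K : ℚ) ^ 4)) + K * (2 ^ (6 * K) * (80 * (K : ℚ) ^ 4))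
      = (((K : ℚ) + 1) * (65 * (K : ℚ) ^ 4) + K * (80 * (K : ℚ) ^ 4)) * 2 ^ (6 * K) := by ring
    _ ≤ 10 ^ 6 * (K : ℚ) ^ 6 * 2 ^ (6 * K) := mul_le_mul_of_nonneg_right this hq.le

end Pool.Agent.H11.NW
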