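import Pool.Agent.H11.NW.Defs

/-!
# NW, module Val: `J ℚ (2 ^ m) ≠ 0`

2-adic dominance of the node `-K`, `K = 2 ^ m`: its term is `rr K`, of 2-adic valuation `1 - 2 K`,
every other term has valuation at least `2 - 2 K`.
-/

set_option autoImplicit false

namespace Pool.Agent.H11.NW

open Finset

namespace Val

/-- the 2-adic valuation of `x` is at least `n` -/
def V (n : ℤ) (x : ℚ) : Prop := padicNorm 2 x ≤ (2 : ℚ) ^ (-n)

theorem V_mono {m n : ℤ} {x : ℚ} (h : V n x) (hmn : m ≤ n) : V m x := by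
  unfold V at *
  exact h.trans (zpow_le_zpow_right₀ (by norm_num) (by omega))

theorem V_add {n : ℤ} {x y : ℚ} (hx : V n x) (hy : V n y) : V n (x + y) := by
  unfold V at *
  exact (padicNorm.nonarchimedean (p := 2)).trans (max_le hx hy)

theorem V_neg {n : ℤ} {x : ℚ} (hx : V n x) : V n (-x) := by
  unfold V at *
  rwa [padicNorm.neg]

theorem V_sub {n : ℤ} {x y : ℚ} (hx : V n x) (hy : V n y) : V n (x - y) := by
  rw [sub_eq_add_neg]
  exact V_add hx (V_neg hy)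

theorem V_mul {m n : ℤ} {x y : ℚ} (hx : V m x) (hy : V n y) : V (m + n) (x * y) := by
  unfold V at *
  rw [padicNorm.mul, neg_add, zpow_add₀ (by norm_num)]
  exact mul_le_mul hx hy (padicNorm.nonneg _) (by positivity)

theorem V_zero (n : ℤ) : V n 0 := by
  unfold V
  rw [padicNorm.zero]
  positivity

theorem V_sum {ι : Type} (s : Finset ι) (f : ι → ℚ) {n : ℤ} (h : ∀ i ∈ s, V n (f i)) :
    V n (∑ i ∈ s, f i) := by
  classical
  induction s using Finset.induction_on with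
  | empty => simpa using V_zero n
  | insert a s ha ih =>
    rw [Finset.sum_insert ha]
    exact V_add (h a (Finset.mem_insert_self _ _))
      (ih fun i hi => h i (Finset.mem_insert_of_mem hi))

theorem V_nat (n : ℕ) : V 0 (n : ℚ) := by
  unfold V
  simpa using padicNorm.of_nat (p := 2) n

theorem V_int (n : ℤ) : V 0 (n : ℚ) := by
  unfold V
  simpa using padicNorm.of_int (p := 2) n

theorem V_pow {m : ℤ} {x : ℚ} (hx : V m x) (k : ℕ) : V (k * m) (x ^ k) := by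
  induction k with
  | zero => simpa using V_int 1
  | succ k ih =>
    rw [pow_succ]
    have := V_mul ih hx
    refine V_mono this (le_of_eq ?_)
    push_cast
    ring

/-- a natural number divisible by `2 ^ n` -/
theorem V_of_dvd {n a : ℕ} (h : 2 ^ n ∣ a) : V n (a : ℚ) := by
  unfold V
  have := (padicNorm.dvd_iff_norm_le (p := 2) (n := n) (z := (a : ℤ))).1 (by exact_mod_cast h)
  simpa using this

theorem dvd_of_V {n a : ℕ} (h : V n (a : ℚ)) : 2 ^ n ∣ a := by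
  unfold V at h
  have := (padicNorm.dvd_iff_norm_le (p := 2) (n := n) (z := (a : ℤ))).2 (by simpa using h)
  exact_mod_cast this

theorem V_two : V 1 (2 : ℚ) := by
  have := V_of_dvd (n := 1) (a := 2) (by norm_num)
  simpa using this

theorem norm_two : padicNorm 2 (2 : ℚ) = 2⁻¹ := by
  have := padicNorm.padicNorm_p_of_prime (p := 2)
  simpa using this

theorem V_half {n : ℤ} {x : ℚ} (h : V n x) : V (n - 1) (x / 2) := by
  unfold V at *
  rw [padicNorm.div, norm_two, div_inv_eq_mul, neg_sub, sub_eq_add_neg, add_comm,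
    zpow_add₀ (by norm_num), zpow_one]
  linarith

/-- the inverse of a natural number below `2 ^ (s + 1)` -/
theorem V_inv_nat {s a : ℕ} (ha : 0 < a) (h : a < 2 ^ (s + 1)) : V (-(s : ℤ)) (1 / (a : ℚ)) := by
  unfold V
  rw [padicNorm.div, padicNorm.one, neg_neg]
  have ha' : (a : ℚ) ≠ 0 := by exact_mod_cast ha.ne'
  rw [padicNorm.eq_zpow_of_nonzero ha', one_div, ← zpow_neg, neg_neg]
  refine zpow_le_zpow_right₀ (by norm_num) ?_
  rw [padicValRat.of_nat]
  have h1 : 2 ^ padicValNat 2 a ≤ a := Nat.le_of_dvd ha pow_padicValNat_dvd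
  have h2 : 2 ^ padicValNat 2 a < 2 ^ (s + 1) := lt_of_le_of_lt h1 h
  have h3 : padicValNat 2 a < s + 1 := (Nat.pow_lt_pow_iff_right (by norm_num : 1 < 2)).1 h2
  have h4 : padicValNat 2 a ≤ s := Nat.lt_succ_iff.1 h3
  exact_mod_cast h4

/-- the inverse of an odd number -/
theorem V_inv_odd {a : ℕ} (ha : a % 2 = 1) : V 0 (1 / (a : ℚ)) := by
  unfold V
  rw [padicNorm.div, padicNorm.one]
  have : padicNorm 2 (a : ℚ) = 1 := (padicNorm.nat_eq_one_iff a).2 (by omega)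
  rw [this]
  norm_num

theorem V_H {s n : ℕ} (h : n < 2 ^ (s + 1)) : V (-(s : ℤ)) (H ℚ n) := by
  unfold H
  refine V_sum _ _ fun j hj => ?_
  have hj' := Finset.mem_range.1 hj
  have := V_inv_nat (s := s) (a := j + 1) (by omega) (by omega)
  push_cast at this
  exact this

theorem V_H2 {s n : ℕ} (h : n < 2 ^ (s + 1)) : V (-(2 * s : ℤ)) (H2 ℚ n) := by
  unfold H2
  refine V_sum _ _ fun j hj => ?_
  have hj' := Finset.mem_range.1 hj
  have := V_pow (V_inv_nat (s := s) (a := j + 1) (by omega) (by omega)) 2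
  push_cast at this
  rw [div_pow, one_pow] at this
  refine V_mono this (le_of_eq ?_)
  ring

theorem V_Od (n : ℕ) : V 0 (Od ℚ n) := by
  unfold Od
  refine V_sum _ _ fun j _ => ?_
  have h1 := V_mul (V_nat 2) (V_inv_odd (a := 2 * j + 1) (by omega))
  refine V_mono (m := 0) (n := 0 + 0) ?_ (by norm_num)
  push_cast at h1
  rwa [mul_one_div] at h1

theorem V_Od2 (n : ℕ) : V 0 (Od2 ℚ n) := by
  unfold Od2
  refine V_sum _ _ fun j _ => ?_
  have h1 := V_mul (V_nat 4) (V_pow (V_inv_odd (a := 2 * j + 1) (by omega)) 2)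
  refine V_mono (m := 0) (n := 0 + ((2 : ℕ) : ℤ) * 0) ?_ (by norm_num)
  push_cast at h1
  rw [div_pow, one_pow, mul_one_div] at h1
  push_cast
  exact h1

theorem V_Q (n : ℕ) : V 0 (Q ℚ n) := by
  unfold Q
  induction n with
  | zero => simpa using V_int 1
  | succ n ih =>
    rw [Finset.prod_range_succ]
    have h1 := V_mul (V_nat (2 * (n + 1))) (V_inv_odd (a := 2 * (n + 1) + 1) (by omega))
    push_cast at h1
    rw [mul_one_div] at h1
    have := V_mul ih h1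
    exact V_mono this (by norm_num)

/-- `1 / 4 ^ k` -/
theorem V_four_pow (k : ℕ) {n : ℤ} {x : ℚ} (h : V n x) : V (n - 2 * k) (x / 4 ^ k) := by
  induction k with
  | zero => simpa using h
  | succ k ih =>
    have := V_half (V_half ih)
    rw [pow_succ]
    have h2 : x / (4 ^ k * 4) = x / 4 ^ k / 2 / 2 := by
      field_simp
      norm_num
    rw [h2]
    refine V_mono this (le_of_eq ?_)
    push_cast
    ring

theorem V_four_pow' (k : ℕ) {n : ℤ} {x : ℚ} (h : V (n - 2 * k) (x / 4 ^ k)) : V n x := by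
  have h4 : V (2 * k : ℤ) ((4 : ℚ) ^ k) := by
    have := V_of_dvd (n := 2 * k) (a := 4 ^ k) (by rw [pow_mul]; norm_num)
    push_cast at this
    exact this
  have := V_mul h h4
  rw [div_mul_cancel₀ _ (by positivity)] at this
  refine V_mono this (le_of_eq ?_)
  ring

theorem V_rr (k : ℕ) : V (-(2 * k : ℤ)) (rr ℚ k) := by
  unfold rr
  have := V_four_pow k (V_nat k.centralBinom)
  exact V_mono this (by omega)

/-- Kummer for the binomial coefficients of `2 ^ n` -/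
theorem dvd_choose {n j : ℕ} (hj : j ≤ 2 ^ n) (h0 : j ≠ 0) :
    2 ^ (n - j.factorization 2) ∣ (2 ^ n).choose j := by
  have h := Nat.factorization_choose_prime_pow_add_factorization Nat.prime_two hj h0
  have h1 : n - j.factorization 2 = ((2 ^ n).choose j).factorization 2 := by omega
  rw [h1]
  exact Nat.ordProj_dvd _ _

theorem fact_le {n j : ℕ} (hj : j ≤ 2 ^ n) (h0 : j ≠ 0) : j.factorization 2 ≤ n := by
  have h := Nat.factorization_choose_prime_pow_add_factorization Nat.prime_two hj h0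
  omega

theorem not_four_dvd (m : ℕ) : ¬ (2 ^ 2 ∣ Nat.centralBinom (2 ^ m)) := by
  intro h
  have hc : Nat.centralBinom (2 ^ m) = (2 ^ (m + 1)).choose (2 ^ m) := by
    rw [Nat.centralBinom_eq_two_mul_choose, pow_succ, mul_comm]
  have h1 := Nat.factorization_choose_prime_pow_add_factorization Nat.prime_two
    (n := m + 1) (k := 2 ^ m) (Nat.pow_le_pow_right (by norm_num) (by omega)) (by positivity)
  have h2 : (2 ^ m).factorization 2 = m := by
    rw [Nat.Prime.factorization_pow Nat.prime_two]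
    simp
  rw [h2, ← hc] at h1
  have h3 : 2 ≤ (Nat.centralBinom (2 ^ m)).factorization 2 :=
    (Nat.Prime.pow_dvd_iff_le_factorization Nat.prime_two (Nat.centralBinom_ne_zero _)).1 h
  omega

theorem V_neg_one_pow (n : ℕ) : V 0 ((-1 : ℚ) ^ n) := by
  rcases neg_one_pow_eq_or ℚ n with h | h <;> rw [h]
  · simpa using V_int 1
  · simpa using V_int (-1)

theorem V_p1 {m k : ℕ} (hk : k < 2 ^ m) : V (-(m : ℤ)) (p1 ℚ (2 ^ m) k) := by
  unfold p1
  have h1 : 2 ^ (m + 1) = 2 * 2 ^ m := by ring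
  have a1 : V (-(m : ℤ)) (H ℚ k) := V_H (by omega)
  have a2 : V (-(m : ℤ)) (Od ℚ k) := V_mono (V_Od k) (by omega)
  have a3 : V (-(m : ℤ)) (H ℚ (2 ^ m - k)) := V_H (by omega)
  have a4 : V (-(m : ℤ)) (H ℚ (2 ^ m + k)) := V_H (by omega)
  have a5 := V_mul (V_nat 3) (V_sub a3 a4)
  refine V_sub (V_sub a1 a2) (V_mono a5 (by omega))

theorem V_p2 {m k : ℕ} (hk : k < 2 ^ m) : V (-(2 * m : ℤ)) (p2 ℚ (2 ^ m) k) := by
  unfold p2
  have h1 : 2 ^ (m + 1) = 2 * 2 ^ m := by ring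
  have a1 : V (-(2 * m : ℤ)) (H2 ℚ k) := V_H2 (by omega)
  have a2 : V (-(2 * m : ℤ)) (Od2 ℚ k) := V_mono (V_Od2 k) (by omega)
  have a3 : V (-(2 * m : ℤ)) (H2 ℚ (2 ^ m - k)) := V_H2 (by omega)
  have a4 : V (-(2 * m : ℤ)) (H2 ℚ (2 ^ m + k)) := V_H2 (by omega)
  have a5 := V_mul (V_nat 3) (V_add a3 a4)
  refine V_add (V_sub a1 a2) (V_mono a5 (by omega))

theorem V_TN {m k : ℕ} (hk : k < 2 ^ m) :
    V (2 * ((2 ^ m - k).factorization 2 : ℤ) - 2 * m - 1 - 2 * k) (TN ℚ (2 ^ m) k) := by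
  unfold TN
  set j := 2 ^ m - k with hj
  have hj0 : j ≠ 0 := by omega
  have hjm : j ≤ 2 ^ m := by omega
  set v := j.factorization 2 with hv
  have hvm : v ≤ m := fact_le hjm hj0
  have hjv : V v (j : ℚ) := V_of_dvd (Nat.ordProj_dvd _ _)
  have b1 := V_half (V_mul (V_pow hjv 2) (V_add (V_mono (V_pow (V_p1 hk) 2)
    (by push_cast; linarith)) (V_p2 hk)))
  have b2 := V_mul (V_mul V_two hjv) (V_p1 hk)
  have b3 : V 0 (1 : ℚ) := by simpa using V_int 1
  have b4 : V (2 * (v : ℤ) - 2 * m - 1)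
      ((j : ℚ) ^ 2 * (p1 ℚ (2 ^ m) k ^ 2 + p2 ℚ (2 ^ m) k) / 2
        + 2 * (j : ℚ) * p1 ℚ (2 ^ m) k + 1) := by
    refine V_add (V_add (V_mono b1 ?_) (V_mono b2 ?_)) (V_mono b3 ?_)
    · push_cast
      linarith
    · omega
    · omega
  have := V_mul (V_rr k) b4
  exact V_mono this (by omega)

theorem V_TP {m i : ℕ} (hi : i < 2 ^ m) : V (-(m : ℤ)) (TP ℚ (2 ^ m) i) := by
  unfold TP
  have h1 : 2 ^ (m + 1 + 1) = 4 * 2 ^ m := by ring
  have hp : 0 < 2 ^ m := by positivity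
  have a1 : V (-((m + 1 : ℕ) : ℤ)) (H ℚ i) := V_H (by omega)
  have a2 : V (-((m + 1 : ℕ) : ℤ)) (Od ℚ (i + 1)) := V_mono (V_Od _) (by omega)
  have a3 : V (-((m + 1 : ℕ) : ℤ)) (H ℚ (2 ^ m + i + 1)) := V_H (by omega)
  have a4 : V (-((m + 1 : ℕ) : ℤ)) (H ℚ (2 ^ m - (i + 1))) := V_H (by omega)
  have a5 := V_mul (V_nat 3) (V_sub a3 a4)
  have a6 : V (-((m + 1 : ℕ) : ℤ)) (H ℚ i - Od ℚ (i + 1)
      - 3 * (H ℚ (2 ^ m + i + 1) - H ℚ (2 ^ m - (i + 1)))) :=
    V_sub (V_sub a1 a2) (V_mono a5 (by omega))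
  have a7 := V_mul (V_pow (V_nat (2 ^ m + i + 1)) 2) a6
  have a8 := V_mul V_two (V_nat (2 ^ m + i + 1))
  have a9 := V_mul (V_mul V_two (V_Q i)) (V_add (V_mono a7
    (show -((m + 1 : ℕ) : ℤ) ≤ _ by push_cast; omega)) (V_mono a8 (by push_cast; omega)))
  refine V_mono a9 ?_
  push_cast
  omega

end Val

open Val in
theorem J_ne_zero (m : ℕ) (hm : 2 ≤ m) : J ℚ (2 ^ m) ≠ 0 := by
  intro hJ
  have hmK : m + 2 ≤ 2 ^ m := by
    clear hJ
    induction m, hm using Nat.le_induction with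
    | base => norm_num
    | succ n hn ih => rw [pow_succ]; omega
  have hsucc : 2 * 2 ^ m = 2 ^ (m + 1) := by ring
  unfold J at hJ
  rw [Finset.sum_range_succ] at hJ
  have hlast : (-1 : ℚ) ^ (2 ^ m + 2 ^ m) * ((2 * 2 ^ m).choose (2 ^ m + 2 ^ m) : ℚ) ^ 3 *
      TN ℚ (2 ^ m) (2 ^ m) = rr ℚ (2 ^ m) := by
    have e1 : (-1 : ℚ) ^ (2 ^ m + 2 ^ m) = 1 := by
      rw [← two_mul, pow_mul]
      norm_num
    rw [e1, ← two_mul, Nat.choose_self]
    unfold TN
    rw [Nat.sub_self]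
    norm_num
  rw [hlast] at hJ
  -- the terms of the other nodes
  have hN : V (2 - 2 * (2 ^ m : ℕ) : ℤ) (∑ k ∈ range (2 ^ m), (-1 : ℚ) ^ (2 ^ m + k) *
      ((2 * 2 ^ m).choose (2 ^ m + k) : ℚ) ^ 3 * TN ℚ (2 ^ m) k) := by
    refine V_sum _ _ fun k hk => ?_
    have hk' := Finset.mem_range.1 hk
    set j := 2 ^ m - k with hj
    have hj0 : j ≠ 0 := by omega
    have hjm : j ≤ 2 ^ m := by omega
    have hvm : j.factorization 2 ≤ m := fact_le hjm hj0
    have hsym : (2 * 2 ^ m).choose (2 ^ m + k) = (2 ^ (m + 1)).choose j := by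
      rw [hsucc]
      refine Nat.choose_symm_of_eq_add ?_
      omega
    have c1 : V ((m + 1 - j.factorization 2 : ℕ) : ℤ) (((2 * 2 ^ m).choose (2 ^ m + k) : ℕ) : ℚ) := by
      rw [hsym]
      exact V_of_dvd (dvd_choose (by omega) hj0)
    have c2 := V_mul (V_mul (V_neg_one_pow (2 ^ m + k)) (V_pow c1 3)) (V_TN hk')
    rw [← hj] at c2
    refine V_mono c2 ?_
    rw [Nat.cast_sub (by omega)]
    push_cast
    have : (k : ℤ) + 1 ≤ 2 ^ m := by exact_mod_cast hk'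
    have : (j.factorization 2 : ℤ) ≤ m := by exact_mod_cast hvm
    linarith
  have hP : V (2 - 2 * (2 ^ m : ℕ) : ℤ) (∑ i ∈ range (2 ^ m), (-1 : ℚ) ^ (2 ^ m - (i + 1)) *
      ((2 * 2 ^ m).choose (2 ^ m + i + 1) : ℚ) ^ 3 * TP ℚ (2 ^ m) i) := by
    refine V_sum _ _ fun i hi => ?_
    have hi' := Finset.mem_range.1 hi
    have c2 := V_mul (V_mul (V_neg_one_pow (2 ^ m - (i + 1)))
      (V_pow (V_nat ((2 * 2 ^ m).choose (2 ^ m + i + 1))) 3)) (V_TP hi')
    refine V_mono c2 ?_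
    have : (m : ℤ) + 2 ≤ ((2 ^ m : ℕ) : ℤ) := by exact_mod_cast hmK
    push_cast at this ⊢
    linarith
  have hr : rr ℚ (2 ^ m) = -((∑ k ∈ range (2 ^ m), (-1 : ℚ) ^ (2 ^ m + k) *
      ((2 * 2 ^ m).choose (2 ^ m + k) : ℚ) ^ 3 * TN ℚ (2 ^ m) k) +
      ∑ i ∈ range (2 ^ m), (-1 : ℚ) ^ (2 ^ m - (i + 1)) *
      ((2 * 2 ^ m).choose (2 ^ m + i + 1) : ℚ) ^ 3 * TP ℚ (2 ^ m) i) := by
    linarith
  have hV : V (2 - 2 * (2 ^ m : ℕ) : ℤ) (rr ℚ (2 ^ m)) := by
    rw [hr]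
    exact V_neg (V_add hN hP)
  unfold rr at hV
  have := V_four_pow' (2 ^ m) (n := 2) hV
  exact not_four_dvd m (dvd_of_V (n := 2) (by exact_mod_cast this))

end Pool.Agent.H11.NW
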