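import Pool.Agent.H11.NW.Vanish
import Pool.Agent.H11.NW.Red
import Pool.Agent.H11.NW.Integ
import Pool.Agent.H11.NW.Size
import Pool.Agent.H11.NW.Val

/-! NW Mass: the logarithmic mass of the Wieferich primes in `(2K, 12K-1]`, `K = 2^m` -/

set_option autoImplicit false

namespace Pool.Agent.H11.NW

open Finset

theorem wieferich_mass (m : ℕ) (hm : 2 ≤ m) :
    ∑ p ∈ (Ioc (2 * 2 ^ m) (12 * 2 ^ m - 1)).filter (fun p => p.Prime ∧ Wf p), Real.log p ≤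
      8 * 2 ^ m * Real.log 2 + 2 * Chebyshev.psi (2 * 2 ^ m : ℝ)
        + Real.log (2 * 10 ^ 6) + 6 * Real.log (2 ^ m : ℝ) := by
  set K : ℕ := 2 ^ m with hK
  have hK4 : 4 ≤ K := by
    rw [hK]
    calc 4 = 2 ^ 2 := by norm_num
      _ ≤ 2 ^ m := Nat.pow_le_pow_right (by norm_num) hm
  obtain ⟨z, hz⟩ := J_int K
  have hJ : J ℚ K ≠ 0 := J_ne_zero m hm
  have hL : 0 < Nat.lcmUpto (2 * K) := Nat.lcmUpto_pos _
  have hLq : (0 : ℚ) < (Nat.lcmUpto (2 * K) : ℚ) := by exact_mod_cast hL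
  have hz0 : z ≠ 0 := by
    intro h0
    rw [h0] at hz
    have : (2 * 4 ^ K * (Nat.lcmUpto (2 * K) : ℚ) ^ 2) ≠ 0 := by positivity
    apply hJ
    have h1 : 2 * 4 ^ K * (Nat.lcmUpto (2 * K) : ℚ) ^ 2 * J ℚ K = 0 := by
      rw [← hz]; simp
    rcases mul_eq_zero.1 h1 with h2 | h2
    · exact absurd h2 this
    · exact h2
  set S := (Ioc (2 * K) (12 * K - 1)).filter (fun p => p.Prime ∧ Wf p) with hS
  have hdvd : ∀ p ∈ S, p ∣ z.natAbs := by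
    intro p hp
    rw [hS, mem_filter, mem_Ioc] at hp
    obtain ⟨⟨h1, h2⟩, hpp, hw⟩ := hp
    have : Fact p.Prime := ⟨hpp⟩
    have h3 : J (ZMod p) K = 0 := J_zmod p (by omega) hw K (by omega) (by omega)
    have h4 := J_red p K (by omega)
    rw [h3] at h4
    have h5 : (p : ℤ) ∣ z := red_int p _ h4 z (2 * 4 ^ K * (Nat.lcmUpto (2 * K) : ℤ) ^ 2) (by
      rw [hz]; push_cast; ring)
    exact Int.natCast_dvd.1 h5
  have hprod : ∏ p ∈ S, p ∣ z.natAbs :=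
    Finset.prod_primes_dvd _ (fun p hp => (mem_filter.1 hp).2.1.prime) hdvd
  have hle : ∏ p ∈ S, p ≤ z.natAbs :=
    Nat.le_of_dvd (Int.natAbs_pos.2 hz0) hprod
  have hlog : ∑ p ∈ S, Real.log p = Real.log ((∏ p ∈ S, p : ℕ) : ℝ) := by
    rw [Nat.cast_prod, Real.log_prod]
    intro p hp
    have := (mem_filter.1 hp).2.1.pos
    positivity
  have hpos : 0 < ∏ p ∈ S, p := Finset.prod_pos fun p hp => (mem_filter.1 hp).2.1.pos
  have hzle : (z.natAbs : ℝ) ≤ 2 * 10 ^ 6 * (K : ℝ) ^ 6 * 2 ^ (8 * K) *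
      (Nat.lcmUpto (2 * K) : ℝ) ^ 2 := by
    have h1 : (z.natAbs : ℚ) ≤ 2 * 10 ^ 6 * (K : ℚ) ^ 6 * 2 ^ (8 * K) *
        (Nat.lcmUpto (2 * K) : ℚ) ^ 2 := by
      have e1 : (z.natAbs : ℚ) = |(z : ℚ)| := by
        rw [Nat.cast_natAbs, Int.cast_abs]
      rw [e1, hz, abs_mul, abs_of_pos (by positivity :
        (0 : ℚ) < 2 * 4 ^ K * (Nat.lcmUpto (2 * K) : ℚ) ^ 2)]
      have h2 := J_size K (by omega)
      calc 2 * 4 ^ K * (Nat.lcmUpto (2 * K) : ℚ) ^ 2 * |J ℚ K|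
          ≤ 2 * 4 ^ K * (Nat.lcmUpto (2 * K) : ℚ) ^ 2 *
            (10 ^ 6 * (K : ℚ) ^ 6 * 2 ^ (6 * K)) := by gcongr
        _ = 2 * 10 ^ 6 * (K : ℚ) ^ 6 * 2 ^ (8 * K) * (Nat.lcmUpto (2 * K) : ℚ) ^ 2 := by
          have : (4 : ℚ) ^ K = 2 ^ (2 * K) := by rw [pow_mul]; norm_num
          rw [this]
          have e : (2 : ℚ) ^ (8 * K) = 2 ^ (2 * K) * 2 ^ (6 * K) := by
            rw [← pow_add]; congr 1; ring
          rw [e]; ring
    exact_mod_cast h1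
  have hKr : (0 : ℝ) < (K : ℝ) := by
    have : 0 < K := by omega
    exact_mod_cast this
  have hLr : (0 : ℝ) < (Nat.lcmUpto (2 * K) : ℝ) := by exact_mod_cast hL
  have hpsi : Chebyshev.psi (2 * 2 ^ m : ℝ) = Real.log (Nat.lcmUpto (2 * K)) := by
    rw [← Chebyshev.psi_eq_log_lcmUpto]
    congr 1
    rw [hK]; push_cast; ring
  have hfin : Real.log ((∏ p ∈ S, p : ℕ) : ℝ) ≤ Real.log (2 * 10 ^ 6 * (K : ℝ) ^ 6 * 2 ^ (8 * K) *
      (Nat.lcmUpto (2 * K) : ℝ) ^ 2) := by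
    apply Real.log_le_log (by exact_mod_cast hpos)
    exact le_trans (by exact_mod_cast hle) hzle
  have hexp : Real.log (2 * 10 ^ 6 * (K : ℝ) ^ 6 * 2 ^ (8 * K) *
      (Nat.lcmUpto (2 * K) : ℝ) ^ 2) =
      8 * K * Real.log 2 + 2 * Real.log (Nat.lcmUpto (2 * K))
        + Real.log (2 * 10 ^ 6) + 6 * Real.log K := by
    rw [Real.log_mul (by positivity) (by positivity), Real.log_mul (by positivity) (by positivity),
      Real.log_mul (by positivity) (by positivity), Real.log_pow, Real.log_pow, Real.log_pow]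
    push_cast
    ring
  have hK2 : ((2 : ℝ) ^ m) = (K : ℝ) := by rw [hK]; push_cast; ring
  rw [hlog, hpsi, hK2]
  rw [hexp] at hfin
  linarith

end Pool.Agent.H11.NW
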