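import Pool.Agent.H11.NW.Defs

/-! NW Node: products and sums over the node set `{-K, ..., K}` (helper11) -/

set_option autoImplicit false

namespace Pool.Agent.H11.NW

open Finset

/-- the node set `{-K, ..., K}` in `F` -/
def nodes (F : Type) [Field F] [DecidableEq F] (K : ℕ) : Finset F :=
  (range (2 * K + 1)).image fun t : ℕ => (t : F) - K

theorem erase_split (n t0 : ℕ) (h : t0 ≤ n) :
    (range (n + 1)).erase t0 = range t0 ∪ (range (n - t0)).image (fun i => t0 + 1 + i) ∧
    Disjoint (range t0) ((range (n - t0)).image (fun i => t0 + 1 + i)) := by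
  constructor
  · ext t
    simp only [mem_erase, mem_range, mem_union, mem_image]
    constructor
    · rintro ⟨h1, h2⟩
      rcases lt_or_gt_of_ne h1 with h3 | h3
      · exact Or.inl h3
      · exact Or.inr ⟨t - t0 - 1, by omega, by omega⟩
    · rintro (h1 | ⟨i, h1, rfl⟩)
      · exact ⟨by omega, by omega⟩
      · exact ⟨by omega, by omega⟩
  · rw [Finset.disjoint_left]
    intro t h1 h2
    rw [mem_range] at h1
    obtain ⟨i, _, rfl⟩ := mem_image.1 h2
    omega

theorem prod_erase_split {M : Type*} [CommMonoid M] (ψ : ℕ → M) (n t0 : ℕ) (h : t0 ≤ n) :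
    ∏ t ∈ (range (n + 1)).erase t0, ψ t =
      (∏ i ∈ range t0, ψ (t0 - 1 - i)) * ∏ i ∈ range (n - t0), ψ (t0 + 1 + i) := by
  rw [(erase_split n t0 h).1, prod_union (erase_split n t0 h).2,
    prod_image (fun i _ j _ hij => by omega), Finset.prod_range_reflect]

theorem sum_erase_split {M : Type*} [AddCommMonoid M] (ψ : ℕ → M) (n t0 : ℕ) (h : t0 ≤ n) :
    ∑ t ∈ (range (n + 1)).erase t0, ψ t =
      (∑ i ∈ range t0, ψ (t0 - 1 - i)) + ∑ i ∈ range (n - t0), ψ (t0 + 1 + i) := by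
  rw [(erase_split n t0 h).1, sum_union (erase_split n t0 h).2,
    sum_image (fun i _ j _ hij => by omega), Finset.sum_range_reflect]

section
variable {F : Type} [Field F] [DecidableEq F]

omit [DecidableEq F] in
theorem nodes_inj (K : ℕ) (hK : ∀ n : ℕ, 0 < n → n ≤ 2 * K → (n : F) ≠ 0) :
    Set.InjOn (fun t : ℕ => (t : F) - K) (range (2 * K + 1) : Finset ℕ) := by
  intro a ha b hb hab
  simp only [coe_range, Set.mem_Iio] at ha hb
  have h1 : (a : F) = b := by simpa using hab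
  rcases lt_trichotomy a b with h | h | h
  · exfalso
    apply hK (b - a) (by omega) (by omega)
    rw [Nat.cast_sub h.le, h1, sub_self]
  · exact h
  · exfalso
    apply hK (a - b) (by omega) (by omega)
    rw [Nat.cast_sub h.le, h1, sub_self]

theorem card_nodes (K : ℕ)
    (hK : ∀ n : ℕ, 0 < n → n ≤ 2 * K → (n : F) ≠ 0) : (nodes F K).card = 2 * K + 1 := by
  rw [nodes, card_image_of_injOn (nodes_inj K hK), card_range]

theorem sum_nodes (K : ℕ)
    (hK : ∀ n : ℕ, 0 < n → n ≤ 2 * K → (n : F) ≠ 0) (g : F → F) :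
    ∑ a ∈ nodes F K, g a =
      ∑ k ∈ range (K + 1), g (-(k : F)) + ∑ i ∈ range K, g ((i : F) + 1) := by
  rw [nodes, sum_image (nodes_inj K hK), show 2 * K + 1 = (K + 1) + K by ring,
    sum_range_add, ← Finset.sum_range_reflect]
  congr 1
  · refine sum_congr rfl fun k hk => ?_
    rw [mem_range] at hk
    congr 1
    rw [show K + 1 - 1 - k = K - k by omega, Nat.cast_sub (by omega)]
    ring
  · refine sum_congr rfl fun i _ => ?_
    congr 1
    push_cast
    ring

theorem erase_nodes (K : ℕ) (hK : ∀ n : ℕ, 0 < n → n ≤ 2 * K → (n : F) ≠ 0) (t0 : ℕ)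
    (h0 : t0 ≤ 2 * K) :
    (nodes F K).erase ((t0 : F) - K) =
      ((range (2 * K + 1)).erase t0).image fun t : ℕ => (t : F) - K := by
  ext x
  simp only [nodes, mem_erase, mem_image, mem_range, ne_eq]
  constructor
  · rintro ⟨h1, t, h2, rfl⟩
    exact ⟨t, ⟨fun h => h1 (by rw [h]), h2⟩, rfl⟩
  · rintro ⟨t, ⟨h1, h2⟩, rfl⟩
    refine ⟨fun h => h1 ?_, t, h2, rfl⟩
    exact nodes_inj K hK (by simpa using h2) (by simp; omega) h

theorem node_gen (K : ℕ) (hK : ∀ n : ℕ, 0 < n → n ≤ 2 * K → (n : F) ≠ 0) (t0 : ℕ)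
    (h0 : t0 ≤ 2 * K) :
    ∏ b ∈ (nodes F K).erase ((t0 : F) - K), ((t0 : F) - K - b) =
      (-1) ^ (2 * K - t0) * (t0.factorial * (2 * K - t0).factorial : F) ∧
    ∑ b ∈ (nodes F K).erase ((t0 : F) - K), ((t0 : F) - K - b)⁻¹ = H F t0 - H F (2 * K - t0) ∧
    ∑ b ∈ (nodes F K).erase ((t0 : F) - K), (((t0 : F) - K - b)⁻¹) ^ 2 =
      H2 F t0 + H2 F (2 * K - t0) := by
  have hinj : Set.InjOn (fun t : ℕ => (t : F) - K) (((range (2 * K + 1)).erase t0 : Finset ℕ) : Set ℕ) :=
    (nodes_inj K hK).mono (by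
      intro x hx
      exact mem_of_mem_erase hx)
  rw [erase_nodes K hK t0 h0]
  have c1 : ∀ i ∈ range t0, ((t0 : F) - K - (((t0 - 1 - i : ℕ) : F) - K)) = (i : F) + 1 := by
    intro i hi
    rw [mem_range] at hi
    rw [show t0 - 1 - i = t0 - (i + 1) by omega, Nat.cast_sub (by omega)]
    push_cast
    ring
  have c2 : ∀ i ∈ range (2 * K - t0),
      ((t0 : F) - K - (((t0 + 1 + i : ℕ) : F) - K)) = -((i : F) + 1) := by
    intro i _
    push_cast
    ring
  have fac : ∀ n : ℕ, ∏ i ∈ range n, ((i : F) + 1) = (n.factorial : F) := by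
    intro n
    induction n with
    | zero => simp
    | succ n ih => rw [prod_range_succ, ih, Nat.factorial_succ]; push_cast; ring
  refine ⟨?_, ?_, ?_⟩
  · rw [prod_image hinj, prod_erase_split _ _ _ h0, prod_congr rfl c1, prod_congr rfl c2, fac]
    rw [show (∏ i ∈ range (2 * K - t0), -((i : F) + 1)) =
      ∏ i ∈ range (2 * K - t0), ((-1) * ((i : F) + 1)) from
        prod_congr rfl fun i _ => by ring]
    rw [prod_mul_distrib, fac, prod_const, card_range]
    ring
  · rw [sum_image hinj, sum_erase_split _ _ _ h0,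
      sum_congr rfl (fun i hi => by rw [c1 i hi]),
      sum_congr (s₁ := range (2 * K - t0)) rfl (fun i hi => by rw [c2 i hi])]
    unfold H
    simp only [inv_neg, one_div, sum_neg_distrib]
    ring
  · rw [sum_image hinj, sum_erase_split _ _ _ h0,
      sum_congr rfl (fun i hi => by rw [c1 i hi]),
      sum_congr (s₁ := range (2 * K - t0)) rfl (fun i hi => by rw [c2 i hi])]
    unfold H2
    simp only [inv_neg, one_div, inv_pow, even_two, Even.neg_pow]

theorem node_neg (K : ℕ)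
    (hK : ∀ n : ℕ, 0 < n → n ≤ 2 * K → (n : F) ≠ 0) (k : ℕ) (hk : k ≤ K) :
    ∏ b ∈ (nodes F K).erase (-(k : F)), (-(k : F) - b) =
      (-1) ^ (K + k) * ((K - k).factorial * (K + k).factorial : F) ∧
    ∑ b ∈ (nodes F K).erase (-(k : F)), (-(k : F) - b)⁻¹ = H F (K - k) - H F (K + k) ∧
    ∑ b ∈ (nodes F K).erase (-(k : F)), ((-(k : F) - b)⁻¹) ^ 2 =
      H2 F (K - k) + H2 F (K + k) := by
  have h := node_gen (F := F) K hK (K - k) (by omega)
  have e : (((K - k : ℕ) : F) - K) = -(k : F) := by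
    rw [Nat.cast_sub hk]; ring
  rw [e, show 2 * K - (K - k) = K + k by omega] at h
  exact h

theorem node_pos (K : ℕ)
    (hK : ∀ n : ℕ, 0 < n → n ≤ 2 * K → (n : F) ≠ 0) (i : ℕ) (hi : i < K) :
    ∏ b ∈ (nodes F K).erase ((i : F) + 1), ((i : F) + 1 - b) =
      (-1) ^ (K - (i + 1)) * ((K + i + 1).factorial * (K - (i + 1)).factorial : F) ∧
    ∑ b ∈ (nodes F K).erase ((i : F) + 1), ((i : F) + 1 - b)⁻¹ =
      H F (K + i + 1) - H F (K - (i + 1)) ∧
    ∑ b ∈ (nodes F K).erase ((i : F) + 1), (((i : F) + 1 - b)⁻¹) ^ 2 =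
      H2 F (K + i + 1) + H2 F (K - (i + 1)) := by
  have h := node_gen (F := F) K hK (K + i + 1) (by omega)
  have e : (((K + i + 1 : ℕ) : F) - K) = (i : F) + 1 := by
    push_cast; ring
  rw [e, show 2 * K - (K + i + 1) = K - (i + 1) by omega] at h
  exact h

end

end Pool.Agent.H11.NW
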