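import Mathlib
import Pool.Agent.H91.EHA.SwJ3
import Pool.Agent.H11.NW.Mass

/-!
# NW, the prime number theorem end (helper45)

`theta(12K) - theta(2K) - 2 psi(2K) - 8 K log 2 = (6 - 8 log 2 + o(1)) K > 9K/20`; with
`wieferich_mass` this gives a positive proportion of non-Wieferich primes.  The prime number
theorem is `Pool.Agent.H91.EHA.pnt`.
-/

set_option autoImplicit false

namespace Pool.Agent.H11.NW

open Finset Filter Topology

/-- `ψ(n)/n → 1`. -/
theorem psi_div_tendsto :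
    Tendsto (fun n : ℕ => Chebyshev.psi (n : ℝ) / n) atTop (𝓝 1) := by
  obtain ⟨C, hC, hp⟩ := Pool.Agent.H91.EHA.pnt 1
  have hlog : Tendsto (fun n : ℕ => Real.log (n : ℝ)) atTop atTop :=
    Real.tendsto_log_atTop.comp tendsto_natCast_atTop_atTop
  have h0 : Tendsto (fun n : ℕ => C / Real.log (n : ℝ)) atTop (𝓝 0) :=
    hlog.const_div_atTop C
  rw [tendsto_iff_norm_sub_tendsto_zero]
  refine squeeze_zero' (Eventually.of_forall fun n => norm_nonneg _) ?_ h0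
  filter_upwards [eventually_ge_atTop 2] with n hn
  have hn0 : (0 : ℝ) < n := by positivity
  have hn2 : (2 : ℝ) ≤ n := by exact_mod_cast hn
  have hl : 0 < Real.log n := Real.log_pos (by linarith)
  have h := hp n hn
  have e : (∑ k ∈ Icc 1 n, Pool.Agent.H91.EHA.Lam k) = Chebyshev.psi (n : ℝ) := by
    unfold Chebyshev.psi
    rw [Nat.floor_natCast]
    rfl
  rw [e, pow_one] at h
  rw [Real.norm_eq_abs]
  have e2 : Chebyshev.psi (n : ℝ) / n - 1 = (Chebyshev.psi (n : ℝ) - n) / n := by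
    field_simp
  rw [e2, abs_div, abs_of_pos hn0, div_le_iff₀ hn0]
  calc |Chebyshev.psi (n : ℝ) - n| ≤ C * n / Real.log n := h
    _ = C / Real.log n * n := by ring

/-- `θ(n)/n → 1`. -/
theorem theta_div_tendsto :
    Tendsto (fun n : ℕ => Chebyshev.theta (n : ℝ) / n) atTop (𝓝 1) := by
  have h1 := psi_div_tendsto
  have h2 : Tendsto (fun n : ℕ => (Chebyshev.psi (n : ℝ) - Chebyshev.theta n) / n)
      atTop (𝓝 0) := by
    have h3 : Tendsto (fun x : ℝ => 2 * (Real.log x / x ^ (1 / 2 : ℝ))) atTop (𝓝 0) := by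
      have := (isLittleO_log_rpow_atTop (show (0 : ℝ) < 1 / 2 by norm_num)).tendsto_div_nhds_zero
      simpa using this.const_mul 2
    have h4 : Tendsto (fun n : ℕ => 2 * (Real.log (n : ℝ) / (n : ℝ) ^ (1 / 2 : ℝ)))
        atTop (𝓝 0) := h3.comp tendsto_natCast_atTop_atTop
    refine squeeze_zero' (Eventually.of_forall fun n => ?_) ?_ h4
    · exact div_nonneg (sub_nonneg.2 (Chebyshev.theta_le_psi _)) (Nat.cast_nonneg _)
    filter_upwards [eventually_ge_atTop 1] with n hn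
    have hn1 : (1 : ℝ) ≤ n := by exact_mod_cast hn
    have hn0 : (0 : ℝ) < n := by linarith
    have h5 := Chebyshev.psi_sub_theta_le hn1
    rw [div_le_iff₀ hn0]
    refine h5.trans (le_of_eq ?_)
    rw [← Real.sqrt_eq_rpow]
    have h6 : √(n : ℝ) * √(n : ℝ) = n := Real.mul_self_sqrt hn0.le
    have h7 : 0 < √(n : ℝ) := Real.sqrt_pos.2 hn0
    have h8 : (n : ℝ) = √(n : ℝ) * √(n : ℝ) := h6.symm
    rw [mul_assoc 2 (Real.log _ / _), div_mul_eq_mul_div]
    rw [show Real.log (n : ℝ) * (n : ℝ) / √(n : ℝ) = √(n : ℝ) * Real.log n by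
      rw [div_eq_iff h7.ne']
      calc Real.log (n : ℝ) * (n : ℝ) = Real.log (n : ℝ) * (√(n : ℝ) * √(n : ℝ)) := by rw [h6]
        _ = √(n : ℝ) * Real.log n * √(n : ℝ) := by ring]
    ring
  have h3 := h1.sub h2
  rw [sub_zero] at h3
  refine h3.congr fun n => ?_
  rw [← sub_div]; ring_nf

/-- The primes of `(a, b]`. -/
theorem theta_sub (a b : ℕ) (hab : a ≤ b) :
    Chebyshev.theta (b : ℝ) - Chebyshev.theta (a : ℝ) =
      ∑ p ∈ (Ioc a b).filter Nat.Prime, Real.log p := by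
  have hsub : (Ioc 0 a).filter Nat.Prime ⊆ (Ioc 0 b).filter Nat.Prime := by
    intro p hp
    simp only [mem_filter, mem_Ioc] at hp ⊢
    exact ⟨⟨hp.1.1, hp.1.2.trans hab⟩, hp.2⟩
  have e : (Ioc a b).filter Nat.Prime = (Ioc 0 b).filter Nat.Prime \ (Ioc 0 a).filter Nat.Prime := by
    ext p
    rw [Finset.mem_sdiff, mem_filter, mem_filter, mem_filter, mem_Ioc, mem_Ioc, mem_Ioc]
    constructor
    · rintro ⟨⟨h1, h2⟩, h3⟩
      exact ⟨⟨⟨h3.pos, h2⟩, h3⟩, fun h => by omega⟩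
    · rintro ⟨⟨⟨h1, h2⟩, h3⟩, h4⟩
      refine ⟨⟨?_, h2⟩, h3⟩
      by_contra h5
      exact h4 ⟨⟨h1, by omega⟩, h3⟩
  unfold Chebyshev.theta
  rw [Nat.floor_natCast, Nat.floor_natCast, e, ← Finset.sum_sdiff hsub]
  ring

/-- **PNT end, logarithmic form.** -/
theorem pnt_end (A : ℕ) (C : ℝ) : ∃ K0 : ℕ, 1 ≤ K0 ∧ ∀ K : ℕ, K0 ≤ K →
    Real.log C + A * Real.log (K + 1) + 8 * K * Real.log 2
        + 2 * Chebyshev.psi ((2 * K : ℕ) : ℝ) + 9 / 20 * K ≤
      ∑ p ∈ (Ioc (2 * K) (12 * K - 1)).filter Nat.Prime, Real.log p := by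
  have hK : Tendsto (fun K : ℕ => (K : ℝ)) atTop atTop := tendsto_natCast_atTop_atTop
  have hinv : Tendsto (fun K : ℕ => ((K : ℝ))⁻¹) atTop (𝓝 0) := tendsto_inv_atTop_zero.comp hK
  -- `θ(12K-1)/K → 12`
  have t12 : Tendsto (fun K : ℕ => 12 * K - 1) atTop atTop := by
    refine tendsto_atTop_mono' atTop ?_ tendsto_id
    filter_upwards [eventually_ge_atTop 1] with K hK1
    simp only [id]; omega
  have t2 : Tendsto (fun K : ℕ => 2 * K) atTop atTop := by
    refine tendsto_atTop_mono (fun K => ?_) tendsto_id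
    simp only [id]; omega
  have h12 : Tendsto (fun K : ℕ => Chebyshev.theta ((12 * K - 1 : ℕ) : ℝ) / K) atTop (𝓝 12) := by
    have a1 := theta_div_tendsto.comp t12
    have a2 : Tendsto (fun K : ℕ => (12 : ℝ) - ((K : ℝ))⁻¹) atTop (𝓝 (12 - 0)) :=
      tendsto_const_nhds.sub hinv
    have a3 := a1.mul a2
    rw [sub_zero, one_mul] at a3
    refine a3.congr' ?_
    filter_upwards [eventually_ge_atTop 1] with K hK1
    have hK0 : (0 : ℝ) < K := by exact_mod_cast hK1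
    have hK1' : (1 : ℝ) ≤ K := by exact_mod_cast hK1
    have e1 : ((12 * K - 1 : ℕ) : ℝ) = 12 * K - 1 := by
      rw [Nat.cast_sub (by omega)]; push_cast; ring
    simp only [Function.comp]
    rw [e1]
    have h13 : (12 * (K : ℝ) - 1) ≠ 0 := by
      have : (0 : ℝ) < 12 * K - 1 := by linarith
      exact this.ne'
    field_simp
  have hth2 : Tendsto (fun K : ℕ => Chebyshev.theta ((2 * K : ℕ) : ℝ) / K) atTop (𝓝 2) := by
    have a1 := (theta_div_tendsto.comp t2).mul_const 2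
    rw [one_mul] at a1
    refine a1.congr' ?_
    filter_upwards [eventually_ge_atTop 1] with K hK1
    have hK0 : (0 : ℝ) < K := by exact_mod_cast hK1
    simp only [Function.comp]
    push_cast
    field_simp
  have hps2 : Tendsto (fun K : ℕ => Chebyshev.psi ((2 * K : ℕ) : ℝ) / K) atTop (𝓝 2) := by
    have a1 := (psi_div_tendsto.comp t2).mul_const 2
    rw [one_mul] at a1
    refine a1.congr' ?_
    filter_upwards [eventually_ge_atTop 1] with K hK1
    have hK0 : (0 : ℝ) < K := by exact_mod_cast hK1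
    simp only [Function.comp]
    push_cast
    field_simp
  have hlogK : Tendsto (fun K : ℕ => Real.log ((K : ℝ) + 1) / K) atTop (𝓝 0) := by
    have b1 : Tendsto (fun x : ℝ => Real.log x / x) atTop (𝓝 0) := by
      have := Real.isLittleO_log_id_atTop.tendsto_div_nhds_zero
      simpa using this
    have b2 : Tendsto (fun K : ℕ => (K : ℝ) + 1) atTop atTop :=
      tendsto_atTop_add_const_right _ _ hK
    have b3 := b1.comp b2
    have b4 : Tendsto (fun K : ℕ => 1 + ((K : ℝ))⁻¹) atTop (𝓝 (1 + 0)) :=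
      tendsto_const_nhds.add hinv
    have b5 := b3.mul b4
    rw [zero_mul] at b5
    refine b5.congr' ?_
    filter_upwards [eventually_ge_atTop 1] with K hK1
    have hK0 : (0 : ℝ) < K := by exact_mod_cast hK1
    have hK2 : ((K : ℝ) + 1) ≠ 0 := by positivity
    simp only [Function.comp]
    field_simp
  have hlogC : Tendsto (fun K : ℕ => Real.log C / K) atTop (𝓝 0) := hK.const_div_atTop _
  have hall : Tendsto (fun K : ℕ => Chebyshev.theta ((12 * K - 1 : ℕ) : ℝ) / K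
      - Chebyshev.theta ((2 * K : ℕ) : ℝ) / K - 2 * (Chebyshev.psi ((2 * K : ℕ) : ℝ) / K)
      - A * (Real.log ((K : ℝ) + 1) / K) - Real.log C / K - 8 * Real.log 2) atTop
      (𝓝 (12 - 2 - 2 * 2 - A * 0 - 0 - 8 * Real.log 2)) :=
    ((((h12.sub hth2).sub (hps2.const_mul 2)).sub (hlogK.const_mul (A : ℝ))).sub hlogC).sub_const _
  have hlim : (9 / 20 : ℝ) < 12 - 2 - 2 * 2 - A * 0 - 0 - 8 * Real.log 2 := by
    have := Real.log_two_lt_d9
    linarith
  have hev := (hall.eventually_const_lt hlim).and (eventually_ge_atTop 1)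
  obtain ⟨K0, hK0⟩ := eventually_atTop.1 hev
  refine ⟨max K0 1, le_max_right _ _, fun K hKK => ?_⟩
  obtain ⟨h1, h2⟩ := hK0 K (le_trans (le_max_left _ _) hKK)
  have hKpos : (0 : ℝ) < K := by exact_mod_cast h2
  rw [← theta_sub (2 * K) (12 * K - 1) (by omega)]
  have h3 : (Chebyshev.theta ((12 * K - 1 : ℕ) : ℝ) / K
      - Chebyshev.theta ((2 * K : ℕ) : ℝ) / K - 2 * (Chebyshev.psi ((2 * K : ℕ) : ℝ) / K)
      - A * (Real.log ((K : ℝ) + 1) / K) - Real.log C / K - 8 * Real.log 2) * K =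
      Chebyshev.theta ((12 * K - 1 : ℕ) : ℝ) - Chebyshev.theta ((2 * K : ℕ) : ℝ)
      - 2 * Chebyshev.psi ((2 * K : ℕ) : ℝ) - A * Real.log ((K : ℝ) + 1) - Real.log C
      - 8 * K * Real.log 2 := by
    field_simp
  have h4 := mul_lt_mul_of_pos_right h1 hKpos
  rw [h3] at h4
  linarith

/-- For large `m` the non-Wieferich primes of `(2K, 12K-1]`, `K = 2^m`, have `∑ log p ≥ 9K/20`. -/
theorem non_wieferich_mass : ∃ m₀ : ℕ, ∀ m : ℕ, m₀ ≤ m →
    (9 / 20 : ℝ) * 2 ^ m ≤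
      ∑ p ∈ (Ioc (2 * 2 ^ m) (12 * 2 ^ m - 1)).filter (fun p => p.Prime ∧ ¬ Wf p), Real.log p := by
  obtain ⟨K0, hK1, h⟩ := pnt_end 6 (2 * 10 ^ 6)
  refine ⟨max K0 2, fun m hm => ?_⟩
  have hm2 : 2 ≤ m := le_trans (le_max_right _ _) hm
  have hmK : K0 ≤ 2 ^ m := by
    have h1 : K0 ≤ m := le_trans (le_max_left _ _) hm
    exact h1.trans (Nat.lt_two_pow_self).le
  have h1 := h (2 ^ m) hmK
  have h2 := wieferich_mass m hm2
  have e1 : ∑ p ∈ (Ioc (2 * 2 ^ m) (12 * 2 ^ m - 1)).filter Nat.Prime, Real.log p =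
      ∑ p ∈ (Ioc (2 * 2 ^ m) (12 * 2 ^ m - 1)).filter (fun p => p.Prime ∧ Wf p), Real.log p
      + ∑ p ∈ (Ioc (2 * 2 ^ m) (12 * 2 ^ m - 1)).filter (fun p => p.Prime ∧ ¬ Wf p),
          Real.log p := by
    rw [← Finset.filter_filter, ← Finset.filter_filter]
    exact (Finset.sum_filter_add_sum_filter_not _ _ _).symm
  have e2 : Chebyshev.psi (((2 * 2 ^ m : ℕ)) : ℝ) = Chebyshev.psi (2 * 2 ^ m : ℝ) := by
    push_cast; rfl
  have e3 : Real.log ((2 : ℝ) ^ m) ≤ Real.log (((2 ^ m : ℕ) : ℝ) + 1) := by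
    refine Real.log_le_log (by positivity) ?_
    push_cast
    linarith
  have e4 : (((2 ^ m : ℕ)) : ℝ) = 2 ^ m := by push_cast; rfl
  rw [e1, e2, e4] at h1
  rw [e4] at e3
  push_cast at h1
  set S1 := ∑ p ∈ (Ioc (2 * 2 ^ m) (12 * 2 ^ m - 1)).filter (fun p => p.Prime ∧ Wf p), Real.log p
  set S2 := ∑ p ∈ (Ioc (2 * 2 ^ m) (12 * 2 ^ m - 1)).filter (fun p => p.Prime ∧ ¬ Wf p), Real.log p
  generalize Chebyshev.psi (2 * 2 ^ m : ℝ) = u at h1 h2
  generalize Real.log (2 * 10 ^ 6) = v at h1 h2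
  linarith

/-- **Counting end.** -/
theorem count_end (Q : ℕ → Prop) (m0 : ℕ)
    (h : ∀ m : ℕ, m0 ≤ m → ∀ S : Finset ℕ,
      (∀ p : ℕ, p.Prime → 2 * 2 ^ m < p → p ≤ 12 * 2 ^ m - 1 → Q p → p ∈ S) →
        9 / 20 * ((2 ^ m : ℕ) : ℝ) ≤
          ∑ p ∈ S.filter (fun p => p.Prime ∧ 2 * 2 ^ m < p ∧ p ≤ 12 * 2 ^ m - 1), Real.log p) :
    ∀ X : ℕ, 24 * 2 ^ m0 ≤ X → ∀ T : Finset ℕ,
      (∀ p : ℕ, p.Prime → p ≤ X → Q p → p ∈ T) →
        3 / 160 * (X : ℝ) / Real.log X ≤ (T.card : ℝ) := by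
  classical
  intro X hX T hT
  have hm0 : 1 ≤ 2 ^ m0 := Nat.one_le_two_pow
  have hX12 : X / 12 ≠ 0 := by
    have : 1 ≤ X / 12 := by
      rw [Nat.le_div_iff_mul_le (by norm_num)]; omega
    omega
  set m := Nat.log 2 (X / 12) with hm
  have h1 : 2 ^ m ≤ X / 12 := Nat.pow_log_le_self 2 hX12
  have h2 : X / 12 < 2 ^ (m + 1) := Nat.lt_pow_succ_log_self (by norm_num) _
  have h3 : 12 * 2 ^ m ≤ X := by
    have := Nat.mul_le_mul_left 12 h1
    have h5 : 12 * (X / 12) ≤ X := Nat.mul_div_le X 12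
    omega
  have h4 : X < 24 * 2 ^ m := by
    rw [Nat.div_lt_iff_lt_mul (by norm_num)] at h2
    rw [pow_succ] at h2
    omega
  have hmm : m0 ≤ m := by
    by_contra hlt
    push Not at hlt
    have : 2 ^ m ≤ 2 ^ m0 := Nat.pow_le_pow_right (by norm_num) hlt.le
    omega
  set S : Finset ℕ := T.filter (fun p => Q p ∧ p ≤ X) with hS
  have hSmem : ∀ p : ℕ, p.Prime → 2 * 2 ^ m < p → p ≤ 12 * 2 ^ m - 1 → Q p → p ∈ S := by
    intro p hp _ hp2 hq
    rw [hS, mem_filter]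
    exact ⟨hT p hp (by omega) hq, hq, by omega⟩
  have hmain := h m hmm S hSmem
  have hX1 : (24 : ℝ) ≤ X := by
    have : 24 ≤ X := by omega
    exact_mod_cast this
  have hlX : 0 < Real.log X := Real.log_pos (by linarith)
  have hsum : ∑ p ∈ S.filter (fun p => p.Prime ∧ 2 * 2 ^ m < p ∧ p ≤ 12 * 2 ^ m - 1), Real.log p ≤
      (T.card : ℝ) * Real.log X := by
    calc ∑ p ∈ S.filter (fun p => p.Prime ∧ 2 * 2 ^ m < p ∧ p ≤ 12 * 2 ^ m - 1), Real.log p
        ≤ ∑ _p ∈ S.filter (fun p => p.Prime ∧ 2 * 2 ^ m < p ∧ p ≤ 12 * 2 ^ m - 1),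
            Real.log X := by
          refine Finset.sum_le_sum fun p hp => ?_
          rw [mem_filter] at hp
          refine Real.log_le_log (by exact_mod_cast hp.2.1.pos) ?_
          have : p ≤ X := by omega
          exact_mod_cast this
      _ = ((S.filter (fun p => p.Prime ∧ 2 * 2 ^ m < p ∧ p ≤ 12 * 2 ^ m - 1)).card : ℝ)
            * Real.log X := by rw [Finset.sum_const, nsmul_eq_mul]
      _ ≤ (T.card : ℝ) * Real.log X := by
          refine mul_le_mul_of_nonneg_right ?_ hlX.le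
          have : (S.filter (fun p => p.Prime ∧ 2 * 2 ^ m < p ∧ p ≤ 12 * 2 ^ m - 1)).card ≤
              T.card := Finset.card_le_card
            ((Finset.filter_subset _ _).trans (Finset.filter_subset _ _))
          exact_mod_cast this
  have h5 : (X : ℝ) ≤ 24 * ((2 ^ m : ℕ) : ℝ) := by exact_mod_cast h4.le
  rw [div_le_iff₀ hlX]
  linarith

/-- A set of naturals with `count ≥ c X / log X` along all large `X` is infinite; form used for
the set of primes with property `Q`. -/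
theorem infinite_end (Q : ℕ → Prop) (m0 : ℕ)
    (h : ∀ X : ℕ, 24 * 2 ^ m0 ≤ X → ∀ T : Finset ℕ,
      (∀ p : ℕ, p.Prime → p ≤ X → Q p → p ∈ T) →
        3 / 160 * (X : ℝ) / Real.log X ≤ (T.card : ℝ)) :
    {p : ℕ | p.Prime ∧ Q p}.Infinite := by
  intro hfin
  have hT : ∀ X : ℕ, 24 * 2 ^ m0 ≤ X → 3 / 160 * (X : ℝ) / Real.log X ≤ (hfin.toFinset.card : ℝ) :=
    fun X hX => h X hX hfin.toFinset fun p hp _ hq => by
      rw [Set.Finite.mem_toFinset]; exact ⟨hp, hq⟩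
  have h1 : Tendsto (fun x : ℝ => Real.log x / x) atTop (𝓝 0) := by
    have := Real.isLittleO_log_id_atTop.tendsto_div_nhds_zero
    simpa using this
  have h2 : Tendsto (fun X : ℕ => Real.log (X : ℝ) / X) atTop (𝓝 0) :=
    h1.comp tendsto_natCast_atTop_atTop
  have hc : (0 : ℝ) < 3 / 160 / ((hfin.toFinset.card : ℝ) + 1) := by positivity
  obtain ⟨X, hX⟩ := ((h2.eventually_lt_const hc).and
    (eventually_ge_atTop (24 * 2 ^ m0))).exists
  obtain ⟨h3, h4⟩ := hX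
  have hm0 : 1 ≤ 2 ^ m0 := Nat.one_le_two_pow
  have hX1 : (24 : ℝ) ≤ X := by
    have : 24 ≤ X := by omega
    exact_mod_cast this
  have hX0 : (0 : ℝ) < X := by linarith
  have hlX : 0 < Real.log X := Real.log_pos (by linarith)
  have h5 := hT X h4
  have hc0 : (0 : ℝ) ≤ (hfin.toFinset.card : ℝ) := Nat.cast_nonneg _
  rw [div_le_iff₀ hlX] at h5
  rw [div_lt_iff₀ hX0, div_mul_eq_mul_div, lt_div_iff₀ (by positivity)] at h3
  nlinarith

/-- positive proportion, for natural `X` -/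
theorem non_wieferich_count_nat : ∃ m₀ : ℕ, ∀ X : ℕ, 24 * 2 ^ m₀ ≤ X →
    3 / 160 * (X : ℝ) / Real.log X ≤
      (((Icc 1 X).filter (fun p => p.Prime ∧ ¬ Wf p)).card : ℝ) := by
  obtain ⟨m0, h⟩ := non_wieferich_mass
  refine ⟨m0, fun X hX => ?_⟩
  refine count_end (fun p => ¬ Wf p) m0 (fun m hm S hS => ?_) X hX _ (fun p hp hpX hq => ?_)
  · have h1 := h m hm
    push_cast
    refine h1.trans (Finset.sum_le_sum_of_subset_of_nonneg (fun p hp => ?_) fun p _ _ =>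
      Real.log_natCast_nonneg p)
    rw [mem_filter, mem_Ioc] at hp
    rw [mem_filter]
    exact ⟨hS p hp.2.1 hp.1.1 hp.1.2 hp.2.2, hp.2.1, hp.1.1, hp.1.2⟩
  · rw [mem_filter, mem_Icc]
    exact ⟨⟨hp.one_lt.le, hpX⟩, hp, hq⟩

/-- positive proportion -/
theorem non_wieferich_count : ∃ c : ℝ, 0 < c ∧ ∃ X₀ : ℝ, ∀ X : ℝ, X₀ ≤ X →
    c * X / Real.log X ≤
      (((Icc 1 ⌊X⌋₊).filter (fun p => p.Prime ∧ ¬ Wf p)).card : ℝ) := by
  obtain ⟨m0, h⟩ := non_wieferich_count_nat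
  refine ⟨3 / 320, by norm_num, ((24 * 2 ^ m0 : ℕ) : ℝ) + 1, fun X hX => ?_⟩
  have hm0 : 1 ≤ 2 ^ m0 := Nat.one_le_two_pow
  have hA : (24 : ℝ) ≤ ((24 * 2 ^ m0 : ℕ) : ℝ) := by
    have : 24 ≤ 24 * 2 ^ m0 := by omega
    exact_mod_cast this
  have hX0 : 0 ≤ X := by linarith
  have hfl : 24 * 2 ^ m0 ≤ ⌊X⌋₊ := Nat.le_floor (by linarith)
  have h1 := h ⌊X⌋₊ hfl
  refine le_trans ?_ h1
  have h2 : X < (⌊X⌋₊ : ℝ) + 1 := Nat.lt_floor_add_one X
  have h3 : ((⌊X⌋₊ : ℕ) : ℝ) ≤ X := Nat.floor_le hX0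
  have h4 : (24 : ℝ) ≤ (⌊X⌋₊ : ℝ) := by
    have : 24 ≤ ⌊X⌋₊ := by omega
    exact_mod_cast this
  have hl0 : 0 < Real.log (⌊X⌋₊ : ℝ) := Real.log_pos (by linarith)
  have hl1 : Real.log (⌊X⌋₊ : ℝ) ≤ Real.log X := Real.log_le_log (by linarith) h3
  calc 3 / 320 * X / Real.log X ≤ 3 / 320 * X / Real.log (⌊X⌋₊ : ℝ) :=
        div_le_div_of_nonneg_left (by positivity) hl0 hl1
    _ ≤ 3 / 160 * (⌊X⌋₊ : ℝ) / Real.log (⌊X⌋₊ : ℝ) := by
        refine div_le_div_of_nonneg_right ?_ hl0.le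
        linarith

theorem infinite_non_wieferich : {p : ℕ | p.Prime ∧ ¬ (p ^ 2 ∣ 2 ^ (p - 1) - 1)}.Infinite := by
  obtain ⟨m0, h⟩ := non_wieferich_count_nat
  refine infinite_end (fun p => ¬ Wf p) m0 fun X hX T hT => (h X hX).trans ?_
  have : ((Icc 1 X).filter (fun p => p.Prime ∧ ¬ Wf p)).card ≤ T.card := by
    refine Finset.card_le_card fun p hp => ?_
    rw [mem_filter, mem_Icc] at hp
    exact hT p hp.2.1 hp.1.2 hp.2.2
  exact_mod_cast this

end Pool.Agent.H11.NW
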