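import Pool.Agent.H11.NW.Herm
import Pool.Agent.H11.NW.Jets
import Pool.Agent.H11.NW.Harm
import Pool.Agent.H11.NW.Node

/-!
# NW: the sum `J` vanishes in `ZMod p` for a Wieferich prime (helper84)

The residues of `(X + K)^2 f / prod (X - a)^3` at the nodes `-K, ..., K` sum to zero.
-/

set_option autoImplicit false

namespace Pool.Agent.H11.NW

open Finset Polynomial

private theorem sign_cube {F : Type} [Field F] (n : ℕ) : (((-1 : F) ^ n)⁻¹) ^ 3 = (-1) ^ n := by
  rcases neg_one_pow_eq_or F n with h | h <;> rw [h] <;> norm_num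

/-- `(2K)!^3` times the cube of the inverse node product -/
private theorem weight_eq {F : Type} [Field F] (N a b : ℕ) (hab : a + b = N) (n : ℕ)
    (hN : (N.factorial : F) ≠ 0) :
    (N.factorial : F) ^ 3 * (((-1) ^ n * ((a.factorial : F) * (b.factorial : F)))⁻¹) ^ 3 =
      (-1) ^ n * ((N.choose b : ℕ) : F) ^ 3 := by
  have h1 : (N.factorial : F) = (N.choose b : F) * (b.factorial : F) * (a.factorial : F) := by
    have h := Nat.choose_mul_factorial_mul_factorial (n := N) (k := b) (by omega)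
    have h' : N - b = a := by omega
    rw [h'] at h
    have h3 := congrArg (Nat.cast : ℕ → F) h
    push_cast at h3
    exact h3.symm
  have ha : (a.factorial : F) ≠ 0 := by
    intro h0
    apply hN
    rw [h1, h0, mul_zero]
  have hb : (b.factorial : F) ≠ 0 := by
    intro h0
    apply hN
    rw [h1, h0, mul_zero, zero_mul]
  rw [mul_inv, mul_pow, sign_cube, h1]
  field_simp

private theorem cast_sub_neg {F : Type} [Field F] (K k : ℕ) (hk : k ≤ K) :
    -(k : F) + (K : F) = ((K - k : ℕ) : F) := by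
  rw [Nat.cast_sub hk]
  ring

private theorem term_neg {F : Type} [Field F] [DecidableEq F] (h2 : (2 : F) ≠ 0) (K : ℕ)
    (hK : ∀ n : ℕ, 0 < n → n ≤ 2 * K → (n : F) ≠ 0)
    (hfac : ((2 * K).factorial : F) ≠ 0) (f : F[X]) (k : ℕ) (hk : k ≤ K)
    (g0 : (taylor (-(k : F)) f).coeff 0 = rr F k)
    (g1 : (taylor (-(k : F)) f).coeff 1 = rr F k * (H F k - Od F k))
    (g2 : (taylor (-(k : F)) f).coeff 2 =
      rr F k * (((H F k - Od F k) ^ 2 + (H2 F k - Od2 F k)) / 2)) :
    ((2 * K).factorial : F) ^ 3 *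
      ((∏ b ∈ (nodes F K).erase (-(k : F)), (-(k : F) - b))⁻¹ ^ 3 *
      ((taylor (-(k : F)) ((X + C (K : F)) ^ 2 * f)).coeff 2
        + (-3 * ∑ b ∈ (nodes F K).erase (-(k : F)), (-(k : F) - b)⁻¹) *
          (taylor (-(k : F)) ((X + C (K : F)) ^ 2 * f)).coeff 1
        + ((9 * (∑ b ∈ (nodes F K).erase (-(k : F)), (-(k : F) - b)⁻¹) ^ 2
            + 3 * ∑ b ∈ (nodes F K).erase (-(k : F)), ((-(k : F) - b)⁻¹) ^ 2) / 2)
          * (taylor (-(k : F)) ((X + C (K : F)) ^ 2 * f)).coeff 0)) =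
      (-1) ^ (K + k) * ((2 * K).choose (K + k) : F) ^ 3 * TN F K k := by
  obtain ⟨e1, e2, e3⟩ := node_neg K hK k hk
  rw [e1, e2, e3, taylor_sq_mul, cast_sub_neg K k hk, coeff_sq0, coeff_sq1, coeff_sq2, g0, g1, g2,
    ← mul_assoc, weight_eq (2 * K) (K - k) (K + k) (by omega) (K + k) hfac]
  unfold TN p1 p2
  field_simp
  ring

private theorem term_pos {F : Type} [Field F] [DecidableEq F] (h2 : (2 : F) ≠ 0) (K : ℕ)
    (hK : ∀ n : ℕ, 0 < n → n ≤ 2 * K → (n : F) ≠ 0)
    (hfac : ((2 * K).factorial : F) ≠ 0) (f : F[X]) (i : ℕ) (hi : i < K)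
    (g0 : (taylor ((i : F) + 1) f).coeff 0 = 0)
    (g1 : (taylor ((i : F) + 1) f).coeff 1 = 2 * Q F i)
    (g2 : (taylor ((i : F) + 1) f).coeff 2 = 2 * Q F i * (H F i - Od F (i + 1))) :
    ((2 * K).factorial : F) ^ 3 *
      ((∏ b ∈ (nodes F K).erase ((i : F) + 1), ((i : F) + 1 - b))⁻¹ ^ 3 *
      ((taylor ((i : F) + 1) ((X + C (K : F)) ^ 2 * f)).coeff 2
        + (-3 * ∑ b ∈ (nodes F K).erase ((i : F) + 1), ((i : F) + 1 - b)⁻¹) *
          (taylor ((i : F) + 1) ((X + C (K : F)) ^ 2 * f)).coeff 1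
        + ((9 * (∑ b ∈ (nodes F K).erase ((i : F) + 1), ((i : F) + 1 - b)⁻¹) ^ 2
            + 3 * ∑ b ∈ (nodes F K).erase ((i : F) + 1), (((i : F) + 1 - b)⁻¹) ^ 2) / 2)
          * (taylor ((i : F) + 1) ((X + C (K : F)) ^ 2 * f)).coeff 0)) =
      (-1) ^ (K - (i + 1)) * ((2 * K).choose (K + i + 1) : F) ^ 3 * TP F K i := by
  obtain ⟨e1, e2, e3⟩ := node_pos K hK i hi
  have e4 : (i : F) + 1 + (K : F) = ((K + i + 1 : ℕ) : F) := by
    push_cast
    ring
  have e5 : ((K + i + 1).factorial : F) * ((K - (i + 1)).factorial : F)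
      = ((K - (i + 1)).factorial : F) * ((K + i + 1).factorial : F) := mul_comm _ _
  rw [e1, e5, e2, e3, taylor_sq_mul, e4, coeff_sq0, coeff_sq1, coeff_sq2, g0, g1, g2,
    ← mul_assoc, weight_eq (2 * K) (K - (i + 1)) (K + i + 1) (by omega) (K - (i + 1)) hfac]
  unfold TP
  field_simp
  ring

theorem J_zmod (p : ℕ) [Fact p.Prime] (hp : 3 < p) (hw : Wf p) (K : ℕ) (h1 : 2 * K < p)
    (h2 : p + 1 ≤ 12 * K) : J (ZMod p) K = 0 := by
  classical
  have hprime : p.Prime := Fact.out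
  have nz : ∀ n : ℕ, 0 < n → n < p → ((n : ℕ) : ZMod p) ≠ 0 := by
    intro n h0 hn h
    rw [ZMod.natCast_eq_zero_iff] at h
    exact absurd (Nat.le_of_dvd h0 h) (by omega)
  have two : (2 : ZMod p) ≠ 0 := by
    have := nz 2 (by norm_num) (by omega)
    exact_mod_cast this
  have hK : ∀ n : ℕ, 0 < n → n ≤ 2 * K → ((n : ℕ) : ZMod p) ≠ 0 :=
    fun n h0 hn => nz n h0 (by omega)
  have hfac : (((2 * K).factorial : ℕ) : ZMod p) ≠ 0 := by
    intro h
    rw [ZMod.natCast_eq_zero_iff, hprime.dvd_factorial] at h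
    omega
  obtain ⟨f, fd, f0, f1, f2, ff⟩ := exists_poly p hp
  have f1' : f.coeff 1 = 0 := by rw [f1, harm_zero p hp hw, neg_zero]
  have f2' : f.coeff 2 = 0 := by
    rw [f2, harm_zero p hp hw, harm2_zero p hp]
    simp
  have hodd : ∀ n : ℕ, 2 * n + 1 < p → (2 * (n : ZMod p) + 1 ≠ 0) := by
    intro n hn h
    have := nz (2 * n + 1) (by omega) hn
    apply this
    push_cast
    exact h
  -- the degree
  have hdeg : ((X + C ((K : ℕ) : ZMod p)) ^ 2 * f).natDegree + 2 ≤ 3 * (nodes (ZMod p) K).card := by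
    rw [card_nodes K hK]
    have a1 : ((X + C ((K : ℕ) : ZMod p)) ^ 2 * f).natDegree ≤ 2 * 1 + (p - 1) / 2 := by
      refine natDegree_mul_le.trans (Nat.add_le_add ?_ fd)
      refine natDegree_pow_le.trans ?_
      rw [natDegree_X_add_C]
    omega
  have key := residue_three two (nodes (ZMod p) K) _ hdeg
  rw [sum_nodes K hK] at key
  refine Eq.trans ?_ ((congrArg (fun z => (((2 * K).factorial : ℕ) : ZMod p) ^ 3 * z) key).trans
    (mul_zero _))
  show J (ZMod p) K = (((2 * K).factorial : ℕ) : ZMod p) ^ 3 * (_ + _)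
  rw [mul_add, mul_sum, mul_sum]
  unfold J
  congr 1
  · refine sum_congr rfl fun k hk => ?_
    have hk' : k ≤ K := by
      have := mem_range.1 hk
      omega
    obtain ⟨g0, g1, g2⟩ := jet_neg two f ff f0 f1' f2' k (fun b hb => ⟨by
      have := nz (b + 1) (by omega) (by omega)
      exact_mod_cast this, hodd b (by omega)⟩)
    exact (term_neg two K hK hfac f k hk' g0 g1 g2).symm
  · refine sum_congr rfl fun i hi => ?_
    have hi' : i < K := mem_range.1 hi
    obtain ⟨g0, g1, g2⟩ := jet_pos two f ff f0 f1' i (fun b hb => ⟨by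
      have := nz (b + 1) (by omega) (by omega)
      exact_mod_cast this, hodd b (by omega)⟩)
    exact (term_pos two K hK hfac f i hi' g0 g1 g2).symm

end Pool.Agent.H11.NW
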